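import Pool.Agent.Lib.MP_0e31aa_co.QQ.NoTwo

/-!
Module Common (45 min): two vertices outside `M` have at least `⌊c/2⌋ - 1` common non-neighbours on
`M`, `c = |M|`.

With `f i = M_i` let `N1, N2 ⊆ range c` be the index sets of the neighbours of `x₁, x₂` and
`w = |N1 ∪ N2|`, `Z` = indices `< c` outside `N1 ∪ N2` (the common non-neighbours), `|Z| = c - w`.
`S` = set of the `t + 1 < c` with `t ∈ N1 ∪ N2`, `|S| ≥ w - 1`. `N1` contains no `t + 1` with
`t ∈ N1` (`noTwo`), the same for `N2`. At most one `t + 1 ∈ N2` with `t ∈ N1` (`swap`), at most one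
`t + 1 ∈ N1` with `t ∈ N2` (`swap`). So `|S ∩ (N1 ∪ N2)| ≤ 2` and `|Z| ≥ w - 3`.
`2 |Z| ≥ (c - w) + (w - 3) = c - 3`, so `c / 2 ≤ |Z| + 1`.
-/

set_option autoImplicit false

namespace Pool.Agent.Lib.MP_0e31aa_co.QQ

open Finset
open Pool.Agent.Lib.MP_0e31aa_co.TC (nb mem_nb Emb HasCyc Bip Pth)
open Pool.Agent.Lib.MP_0e31aa_co.H (dg big mem_big inner mem_inner)
open Pool.Agent.Lib.MP_0e31aa_co.HH (PL)

variable {V W : Type}

theorem common [Fintype V] [DecidableEq V] (G : SimpleGraph V) (n m : ℕ) (v u : V) (M : List V)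
    (h : MaxP G n m v u M) (x₁ x₂ : V) (hx₁ : x₁ ∉ M) (hx₂ : x₂ ∉ M) (hx : x₁ ≠ x₂)
    (Z : Finset V) (hZ : ∀ y, y ∈ Z ↔ y ∈ M ∧ ¬ G.Adj x₁ y ∧ ¬ G.Adj x₂ y) :
    M.length / 2 ≤ Z.card + 1 := by
  classical
  set N : V → Finset ℕ := fun x =>
    (range M.length).filter fun i => ∃ hi : i < M.length, G.Adj x M[i] with hN
  have mN : ∀ x i, i ∈ N x ↔ ∃ hi : i < M.length, G.Adj x M[i] := by
    intro x i
    rw [hN]
    simp only [mem_filter, mem_range]
    exact ⟨fun h => h.2, fun h => ⟨h.1, h⟩⟩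
  set U : Finset ℕ := N x₁ ∪ N x₂ with hU
  set ZI : Finset ℕ := range M.length \ U with hZI
  set S : Finset ℕ := (U.filter fun i => i + 1 < M.length).image (fun i => i + 1) with hS
  have hUr : U ⊆ range M.length := by
    intro i hi
    rw [hU, mem_union, mN, mN] at hi
    rw [mem_range]
    rcases hi with ⟨h1, -⟩ | ⟨h1, -⟩ <;> exact h1
  have hc : U.card + ZI.card = M.length := by
    rw [hZI, card_sdiff_of_subset hUr, card_range]
    have := card_le_card hUr
    rw [card_range] at this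
    omega
  have hSc : U.card ≤ S.card + 1 := by
    rw [hS, card_image_of_injective _ (fun a b hab => by simpa using hab)]
    have h1 : U ⊆ (U.filter fun i => i + 1 < M.length) ∪ {M.length - 1} := by
      intro i hi
      rw [mem_union, mem_filter, mem_singleton]
      have := mem_range.1 (hUr hi)
      by_cases h : i + 1 < M.length
      · exact Or.inl ⟨hi, h⟩
      · exact Or.inr (by omega)
    have h2 := card_le_card h1
    have h3 := card_union_le (U.filter fun i => i + 1 < M.length) {M.length - 1}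
    rw [card_singleton] at h3
    omega
  -- at most one element of `S` in `N x`
  have hone : ∀ a b : V, a ∉ M → b ∉ M → a ≠ b → U = N a ∪ N b → (S ∩ N a).card ≤ 1 := by
    intro a b ha hb hab hUab
    rw [card_le_one]
    have key : ∀ s ∈ S ∩ N a, ∃ i, s = i + 1 ∧ ∃ h1 : i + 1 < M.length,
        G.Adj a M[i + 1] ∧ G.Adj b (M[i]'(by omega)) := by
      intro s hs
      rw [mem_inter, hS, mem_image] at hs
      obtain ⟨⟨i, hi, rfl⟩, hs2⟩ := hs
      rw [mem_filter] at hi
      obtain ⟨h1, h2⟩ := (mN a (i + 1)).1 hs2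
      refine ⟨i, rfl, h1, h2, ?_⟩
      have h3 := hi.1
      rw [hUab, mem_union, mN, mN] at h3
      rcases h3 with ⟨h4, h5⟩ | ⟨h4, h5⟩
      · exact absurd (noTwo G n m v u M h a ha i h1 h5 h2) id
      · exact h5
    intro s hs t ht
    obtain ⟨i, rfl, hi, hi1, hi2⟩ := key s hs
    obtain ⟨j, rfl, hj, hj1, hj2⟩ := key t ht
    rcases lt_trichotomy i j with hij | hij | hij
    · exact absurd (swap G n m v u M h b a hb ha hab.symm i j hij hj hi2 hj2 hi1 hj1) id
    · rw [hij]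
    · exact absurd (swap G n m v u M h b a hb ha hab.symm j i hij hi hj2 hi2 hj1 hi1) id
  have h1 := hone x₁ x₂ hx₁ hx₂ hx hU
  have h2 := hone x₂ x₁ hx₂ hx₁ hx.symm (by rw [hU, union_comm])
  have hSr : S ⊆ range M.length := by
    intro s hs
    rw [hS, mem_image] at hs
    obtain ⟨i, hi, rfl⟩ := hs
    rw [mem_filter] at hi
    exact mem_range.2 hi.2
  have h3 : S ⊆ ZI ∪ ((S ∩ N x₁) ∪ (S ∩ N x₂)) := by
    intro s hs
    rw [mem_union, hZI, mem_sdiff, hU]
    simp only [mem_union, mem_inter]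
    by_cases h4 : s ∈ N x₁
    · exact Or.inr (Or.inl ⟨hs, h4⟩)
    by_cases h5 : s ∈ N x₂
    · exact Or.inr (Or.inr ⟨hs, h5⟩)
    · refine Or.inl ⟨hSr hs, ?_⟩
      rintro (h | h)
      · exact h4 h
      · exact h5 h
  have h4 := card_le_card h3
  have h5 := card_union_le ZI ((S ∩ N x₁) ∪ (S ∩ N x₂))
  have h6 := card_union_le (S ∩ N x₁) (S ∩ N x₂)
  have h7 : ZI.card ≤ Z.card := by
    refine card_le_card_of_injOn (fun i => M.getD i v) ?_ ?_
    · intro i hi
      rw [mem_coe, hZI, mem_sdiff, mem_range, hU, mem_union, mN, mN] at hi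
      obtain ⟨hi1, hi2⟩ := hi
      rw [mem_coe, hZ]
      show M.getD i v ∈ M ∧ ¬ G.Adj x₁ (M.getD i v) ∧ ¬ G.Adj x₂ (M.getD i v)
      rw [List.getD_eq_getElem _ _ hi1]
      refine ⟨List.getElem_mem hi1, ?_, ?_⟩
      · intro h8
        exact hi2 (Or.inl ⟨hi1, h8⟩)
      · intro h8
        exact hi2 (Or.inr ⟨hi1, h8⟩)
    · intro i hi j hj hij
      rw [mem_coe, hZI, mem_sdiff, mem_range] at hi hj
      simp only at hij
      rw [List.getD_eq_getElem _ _ hi.1, List.getD_eq_getElem _ _ hj.1] at hij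
      exact (h.pl.nodup.getElem_inj_iff).1 hij
  omega

end Pool.Agent.Lib.MP_0e31aa_co.QQ
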