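import Pool.Agent.Lib.MP_0e31aa_co.HH.Sec1

/-!
# The full theorem: the maximal path through all hubs

`G` is the blue graph on `2 n - 1` vertices, `big G n` the set of hubs.
-/

set_option autoImplicit false

namespace Pool.Agent.Lib.MP_0e31aa_co.QQ

open Finset
open Pool.Agent.Lib.MP_0e31aa_co.TC (nb mem_nb Emb HasCyc Bip Pth)
open Pool.Agent.Lib.MP_0e31aa_co.H (dg big mem_big inner mem_inner)
open Pool.Agent.Lib.MP_0e31aa_co.HH (PL panc tight)

variable {V W : Type}

/-- A longest path `M` from the hub `v` to the hub `u` through all hubs on at most `m - 1`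
vertices; `noext`: it cannot be extended by one or two vertices. -/
structure MaxP [Fintype V] (G : SimpleGraph V) (n m : ℕ) (v u : V) (M : List V) : Prop where
  pl : PL G v u M
  hv : v ∈ big G n
  hu : u ∈ big G n
  hub : ∀ x ∈ big G n, x ∈ M
  len : M.length + 1 ≤ m
  noext : ∀ M' : List V, PL G v u M' → (∀ x ∈ M, x ∈ M') → M.length < M'.length →
    M.length + 2 < M'.length

theorem maxP_ex [Fintype V] [DecidableEq V] (G : SimpleGraph V) (n m : ℕ) (hm : 3 ≤ m)
    (hV : Fintype.card V + 1 = 2 * n) (hC : ¬ HasCyc G m) (u v : V)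
    (hu : u ∈ big G n) (hv : v ∈ big G n) (huv : G.Adj u v)
    (hl : 2 * (big G n).card ≤ m + 1) : ∃ M, MaxP G n m v u M := by
  have hne : u ≠ v := huv.ne
  obtain ⟨l0, hl0, hl0h, hl0l⟩ := tight G n hV (big G n) (Subset.refl _) u v hu hv hne
  have hl0m : l0.length ≤ m - 1 := by
    have h1 : l0.length ≠ m := by
      intro h
      apply hC
      rw [← h]
      exact hl0.cyc huv
    omega
  classical
  set Q : ℕ → Prop := fun k => ∃ M : List V, PL G v u M ∧ (∀ x ∈ big G n, x ∈ M) ∧ M.length = k
    with hQ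
  have hQ0 : Q l0.length := ⟨l0, hl0, hl0h, rfl⟩
  have hspec : Q (Nat.findGreatest Q (m - 1)) := Nat.findGreatest_spec hl0m hQ0
  have hle : Nat.findGreatest Q (m - 1) ≤ m - 1 := Nat.findGreatest_le _
  obtain ⟨M, hM, hMh, hMl⟩ := hspec
  have hMm : M.length ≤ m - 1 := by rw [hMl]; exact hle
  have hmax : ∀ M' : List V, PL G v u M' → (∀ x ∈ big G n, x ∈ M') → M'.length ≤ m - 1 →
      M'.length ≤ M.length := by
    intro M' h1 h2 h3
    rw [hMl]
    exact Nat.le_findGreatest h3 ⟨M', h1, h2, rfl⟩
  refine ⟨M, hM, hv, hu, hMh, by omega, ?_⟩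
  intro M' h1 h2 h3
  by_contra h4
  have h5 : ¬ M'.length ≤ m - 1 := by
    intro h
    have := hmax M' h1 (fun x hx => h2 x (hMh x hx)) h
    omega
  have h6 : M'.length ≠ m := by
    intro h
    apply hC
    rw [← h]
    exact h1.cyc huv
  have h7 : M.length + 1 = m := by omega
  have hz : ∀ z, G.Adj v z → G.Adj u z → z ∈ M := by
    intro z hz1 hz2
    by_contra hzM
    apply hC
    have hnd : (M ++ [z]).Nodup := by
      rw [List.nodup_append]
      refine ⟨hM.nodup, List.nodup_singleton z, ?_⟩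
      intro a ha b hb
      rw [List.mem_singleton] at hb
      rintro rfl
      exact hzM (hb ▸ ha)
    have hp : PL G v z (M ++ [z]) := hM.append (PL.single G z) hz2 hnd
    have := hp.cyc hz1.symm
    rw [List.length_append, List.length_singleton, h7] at this
    exact this
  exact hC (panc G n hV v u M' h1 huv.symm hv hu (fun z hz1 hz2 => h2 z (hz z hz1 hz2)) m hm
    (by omega))

end Pool.Agent.Lib.MP_0e31aa_co.QQ
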