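import Pool.Agent.Lib.MP_0e31aa_co.H.GreedyK

/-!
Module Deg (40 min): the number of leaves. `A` a nonempty set of vertices of degree at least `d ≥ 3`:
`|A| + d ≤ λ + 1`, `λ = n - |inner T|` = number of leaves.

The degree sum is `2 (n - 1)`, the leaves (non-inner vertices) have degree at least 1 (the tree is
connected, `n ≥ 3`; `leaf_par`), so `∑_{inner T} deg ≤ 2 (n - 1) - λ`, `∑_{inner T} (deg - 2) ≤ λ - 2`, and
`|A| (d - 2) ≤ λ - 2` (`A ⊆ inner T`). Finally `|A| + d ≤ |A| (d - 2) + 3` because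
`(|A| - 1) (d - 3) ≥ 0`.
(The degree sum: `SimpleGraph.sum_degrees_eq_twice_card_edges`, `IsTree.card_edgeFinset`; the link between
`dg` and `degree`: `card_nb_univ` in TC/Classes.lean; or by a rooting `D`: `∑ deg = 2 (n - 1)`.)
-/

set_option autoImplicit false

namespace Pool.Agent.Lib.MP_0e31aa_co.QQ

open Finset
open Pool.Agent.Lib.MP_0e31aa_co.TC (nb mem_nb Emb HasCyc Bip Pth)
open Pool.Agent.Lib.MP_0e31aa_co.H (dg big mem_big inner mem_inner leaf_par)

variable {V W : Type}

theorem card_deg [Fintype W] [DecidableEq W] (T : SimpleGraph W) (hT : T.IsTree)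
    (hW : 3 ≤ Fintype.card W) (A : Finset W) (hA : A.Nonempty) (d : ℕ) (hd : 3 ≤ d)
    (h : ∀ w ∈ A, d ≤ dg T w) : A.card + d + (inner T).card ≤ Fintype.card W + 1 := by
  classical
  have hdeg : ∀ w, dg T w = T.degree w := by
    intro w
    unfold H.dg
    rw [← SimpleGraph.card_neighborFinset_eq_degree]
    congr 1
    ext u
    rw [mem_nb, SimpleGraph.mem_neighborFinset]
    simp
  have hsum : ∑ w, dg T w + 2 = 2 * Fintype.card W := by
    rw [Finset.sum_congr rfl fun w _ => hdeg w, T.sum_degrees_eq_twice_card_edges]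
    have := hT.card_edgeFinset
    omega
  have hsplit := Finset.sum_add_sum_compl (inner T) (fun w => dg T w)
  have hleaf : (inner T)ᶜ.card ≤ ∑ w ∈ (inner T)ᶜ, dg T w := by
    rw [Finset.card_eq_sum_ones]
    refine Finset.sum_le_sum fun w hw => ?_
    rw [Finset.mem_compl] at hw
    obtain ⟨p, -, hp, -⟩ := leaf_par T hT hW w hw
    rw [hdeg]
    exact (T.degree_pos_iff_exists_adj w).2 ⟨p, hp⟩
  have hAin : A ⊆ inner T := by
    intro w hw
    rw [mem_inner]
    have := h w hw
    omega
  have hin : 2 * (inner T).card + A.card * (d - 2) ≤ ∑ w ∈ inner T, dg T w := by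
    have h1 : ∀ w ∈ inner T, 2 + (if w ∈ A then d - 2 else 0) ≤ dg T w := by
      intro w hw
      rw [mem_inner] at hw
      split_ifs with hwA
      · have := h w hwA
        omega
      · omega
    have h2 := Finset.sum_le_sum h1
    rw [Finset.sum_add_distrib, Finset.sum_const, smul_eq_mul, ← Finset.sum_filter,
      Finset.sum_const, smul_eq_mul] at h2
    have h3 : (inner T).filter (fun w => w ∈ A) = A := by
      ext w
      rw [Finset.mem_filter]
      exact ⟨fun h => h.2, fun h => ⟨hAin h, h⟩⟩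
    rw [h3] at h2
    linarith
  have hc : (inner T).card + (inner T)ᶜ.card = Fintype.card W := Finset.card_add_card_compl _
  have hA1 : 1 ≤ A.card := Finset.card_pos.2 hA
  have hprod : A.card + d ≤ A.card * (d - 2) + 3 := by
    obtain ⟨a, ha⟩ : ∃ a, A.card = a + 1 := ⟨A.card - 1, by omega⟩
    obtain ⟨e, he⟩ : ∃ e, d = e + 3 := ⟨d - 3, by omega⟩
    rw [ha, he, show e + 3 - 2 = e + 1 by omega]
    nlinarith [Nat.zero_le (a * e)]
  omega

end Pool.Agent.Lib.MP_0e31aa_co.QQ
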