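import Pool.Agent.Lib.MP_0e31aa_co.QQ.HallY
import Pool.Agent.Lib.MP_0e31aa_co.H.LeafExt
import Pool.Agent.Lib.MP_0e31aa_co.H.GreedyK

/-!
Module EmbAll (75 min): the embedding, when the part `K` is already placed in `X`.

`Q1 = inner T \ P`. `E` = the `x ∈ P \ K` with a neighbour in `S` (leaves of `T` by `hN`, placed last).
Step 1: extend `g` to `K ∪ (P \ E)` with values in `X`, injective (`|K ∪ P| ≤ |P| + |S| ≤ |X|`); adjacency:
the edges inside `K ∪ (P \ E)` are edges inside `K`, because a vertex of `P \ K` in `P \ E` has no neighbour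
in `S`, and `K \ S ⊆ P` (`Bip`).
Step 2: `A` = vertices of `Q1 \ S` of degree at least 3: all their neighbours are in `P \ E` or `K ∩ P`
(a neighbour in `E` would be a leaf with two neighbours), their images in `X`: `hallY` gives `h` on `A` with
values in `Y ⊆ Z`.
Step 3: the vertices of `Q1 \ S` of degree 2: one after the other (induction over a set `B` of placed
vertices): `w` has exactly two neighbours `p1, p2 ∈ P`, the images `g p1 ≠ g p2` in `X` have at least `k`
common neighbours in `Z`; at most `|Q1 \ S| - 1 < k` are used.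
Step 4: `K' = (P \ E) ∪ inner T` is placed; the remaining vertices are leaves, the neighbour is in `P \ E`
or in `S`, placed in `X`: `leaf_ext`.
-/

set_option autoImplicit false

namespace Pool.Agent.Lib.MP_0e31aa_co.QQ

open Finset
open Pool.Agent.Lib.MP_0e31aa_co.TC (nb mem_nb Emb HasCyc Bip Pth)
open Pool.Agent.Lib.MP_0e31aa_co.H (dg big mem_big inner mem_inner leaf_par leaf_ext)

variable {V W : Type}

/-- Extension of an injective map with values in `X`. -/
private theorem embAll_ext [DecidableEq V] [DecidableEq W] (X : Finset V) (K A : Finset W)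
    (hKA : Disjoint K A) (hc : K.card + A.card ≤ X.card) (g : W → V)
    (hg1 : Set.InjOn g (K : Set W)) (hg2 : ∀ w ∈ K, g w ∈ X) :
    ∃ g' : W → V, (∀ w ∈ K, g' w = g w) ∧ (∀ w ∈ A, g' w ∈ X) ∧
      Set.InjOn g' ((K ∪ A : Finset W) : Set W) := by
  classical
  have h1 : (K.image g).card = K.card := card_image_of_injOn hg1
  have h2 : K.image g ⊆ X := by
    intro x hx
    obtain ⟨w, hw, rfl⟩ := mem_image.1 hx
    exact hg2 w hw
  have h3 : Fintype.card A ≤ Fintype.card (X \ K.image g : Finset V) := by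
    rw [Fintype.card_coe, Fintype.card_coe, card_sdiff_of_subset h2]
    omega
  obtain ⟨e⟩ := Function.Embedding.nonempty_of_card_le h3
  have hAK : ∀ w ∈ A, w ∉ K := fun w hw hw' => disjoint_left.1 hKA hw' hw
  let g' : W → V := fun w => if h : w ∈ A then (e ⟨w, h⟩).1 else g w
  have hA : ∀ w (h : w ∈ A), g' w = (e ⟨w, h⟩).1 := fun w h => dif_pos h
  have hK : ∀ w ∈ K, g' w = g w := fun w hw => dif_neg fun h => hAK w h hw
  have hAv : ∀ w ∈ A, g' w ∈ X ∧ g' w ∉ K.image g := by
    intro w hw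
    rw [hA w hw]
    exact mem_sdiff.1 (e ⟨w, hw⟩).2
  refine ⟨g', hK, fun w hw => (hAv w hw).1, ?_⟩
  intro a ha b hb hab
  rw [mem_coe, mem_union] at ha hb
  rcases ha with ha | ha
  · rcases hb with hb | hb
    · rw [hK a ha, hK b hb] at hab
      exact hg1 ha hb hab
    · exfalso
      refine (hAv b hb).2 ?_
      rw [← hab, hK a ha]
      exact mem_image_of_mem _ ha
  · rcases hb with hb | hb
    · exfalso
      refine (hAv a ha).2 ?_
      rw [hab, hK b hb]
      exact mem_image_of_mem _ hb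
    · rw [hA a ha, hA b hb] at hab
      have := e.injective (Subtype.ext hab)
      exact congrArg Subtype.val this

theorem embAll [Fintype V] [DecidableEq V] [Fintype W] [DecidableEq W] (T : SimpleGraph W)
    (hT : T.IsTree) (hW : 3 ≤ Fintype.card W) (P : Finset W) (hP : Bip T P)
    (R : SimpleGraph V) (X Y Z : Finset V) (hXZ : Disjoint X Z) (hYZ : Y ⊆ Z)
    (hYc : Fintype.card W + 1 ≤ Y.card + (inner T).card)
    (hY1 : ∀ x ∈ X, (nb Rᶜ x Y).card ≤ 1) (k : ℕ)
    (hk : ∀ x₁ ∈ X, ∀ x₂ ∈ X, x₁ ≠ x₂ →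
      ∃ C : Finset V, k ≤ C.card ∧ ∀ y ∈ C, y ∈ Z ∧ R.Adj x₁ y ∧ R.Adj x₂ y)
    (hdeg : ∀ x ∈ X, Fintype.card W ≤ dg R x + 1)
    (K S : Finset W) (hS : S ⊆ inner T \ P) (hSK : S ⊆ K) (hKP : ∀ w ∈ K, w ∉ S → w ∈ P)
    (hN : ∀ b ∈ S, ∀ x, T.Adj b x → x ∈ K ∨ x ∉ inner T)
    (hSk : (inner T \ P).card ≤ S.card + k) (hXc : P.card + S.card ≤ X.card)
    (g : W → V) (hg1 : Set.InjOn g (K : Set W)) (hg2 : ∀ w ∈ K, g w ∈ X)
    (hg3 : ∀ a ∈ K, ∀ b ∈ K, T.Adj a b → R.Adj (g a) (g b)) : Emb T R := by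
  classical
  set E : Finset W := P.filter fun x => x ∉ K ∧ ∃ b ∈ S, T.Adj b x with hE
  have mE : ∀ x, x ∈ E ↔ x ∈ P ∧ x ∉ K ∧ ∃ b ∈ S, T.Adj b x := by
    intro x
    rw [hE, mem_filter]
  have hEI : ∀ x ∈ E, x ∉ inner T := by
    intro x hx
    obtain ⟨-, h1, b, hb, hbx⟩ := (mE x).1 hx
    rcases hN b hb x hbx with h | h
    · exact absurd h h1
    · exact h
  set A : Finset W := (P \ E) \ K with hA
  have mA : ∀ x, x ∈ A ↔ (x ∈ P ∧ x ∉ E) ∧ x ∉ K := by
    intro x
    rw [hA, mem_sdiff, mem_sdiff]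
  have hKA : Disjoint K A := by
    rw [disjoint_left]
    intro x hx hx'
    exact ((mA x).1 hx').2 hx
  have hKAc : K.card + A.card ≤ X.card := by
    rw [← card_union_of_disjoint hKA]
    refine le_trans (le_trans (card_le_card ?_) (card_union_le P S)) hXc
    intro x hx
    rw [mem_union] at hx ⊢
    rcases hx with hx | hx
    · by_cases hxS : x ∈ S
      · exact Or.inr hxS
      · exact Or.inl (hKP x hx hxS)
    · exact Or.inl ((mA x).1 hx).1.1
  obtain ⟨g1, hg1K, hg1A, hg1i⟩ := embAll_ext X K A hKA hKAc g hg1 hg2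
  have hg1X : ∀ w ∈ K ∪ A, g1 w ∈ X := by
    intro w hw
    rw [mem_union] at hw
    rcases hw with hw | hw
    · rw [hg1K w hw]
      exact hg2 w hw
    · exact hg1A w hw
  have hSP : ∀ b ∈ S, b ∉ P := fun b hb => (mem_sdiff.1 (hS hb)).2
  have hK1 : ∀ a ∈ K ∪ A, ∀ b ∈ K ∪ A, T.Adj a b → a ∈ K := by
    intro a ha b hb hab
    by_contra haK
    rw [mem_union] at ha hb
    have haA : a ∈ A := ha.resolve_left haK
    rw [mA] at haA
    have hbP : b ∉ P := (hP a b hab).1 haA.1.1
    have hbK : b ∈ K := by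
      rcases hb with hb | hb
      · exact hb
      · exact absurd ((mA b).1 hb).1.1 hbP
    have hbS : b ∈ S := by
      by_contra h
      exact hbP (hKP b hbK h)
    exact haA.1.2 ((mE a).2 ⟨haA.1.1, haK, b, hbS, hab.symm⟩)
  have hg1a : ∀ a ∈ K ∪ A, ∀ b ∈ K ∪ A, T.Adj a b → R.Adj (g1 a) (g1 b) := by
    intro a ha b hb hab
    have h1 := hK1 a ha b hb hab
    have h2 := hK1 b hb a ha hab.symm
    rw [hg1K a h1, hg1K b h2]
    exact hg3 a h1 b h2 hab
  -- the neighbours of the vertices of `Q1 \ S` are placed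
  set Q : Finset W := (inner T \ P) \ S with hQ
  have mQ : ∀ x, x ∈ Q ↔ (x ∈ inner T ∧ x ∉ P) ∧ x ∉ S := by
    intro x
    rw [hQ, mem_sdiff, mem_sdiff]
  have hQc : Q.card ≤ k := by
    rw [hQ, card_sdiff_of_subset hS]
    omega
  have hQn : ∀ w ∈ Q, ∀ x, T.Adj w x → x ∈ K ∪ A := by
    intro w hw x hwx
    rw [mQ] at hw
    have hxP : x ∈ P := by
      by_contra h
      exact hw.1.2 ((hP w x hwx).2 h)
    rw [mem_union]
    by_cases hxK : x ∈ K
    · exact Or.inl hxK
    refine Or.inr ((mA x).2 ⟨⟨hxP, ?_⟩, hxK⟩)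
    intro hxE
    obtain ⟨-, -, b, hb, hbx⟩ := (mE x).1 hxE
    refine hEI x hxE (mem_inner.2 ?_)
    have hne : b ≠ w := fun e => hw.2 (e ▸ hb)
    have hsub : ({b, w} : Finset W) ⊆ nb T x univ := by
      intro z hz
      rw [mem_insert, mem_singleton] at hz
      rcases hz with rfl | rfl
      · exact mem_nb.2 ⟨mem_univ _, hbx.symm⟩
      · exact mem_nb.2 ⟨mem_univ _, hwx.symm⟩
    have h5 := card_le_card hsub
    rw [card_pair hne] at h5
    exact h5
  have hXnZ : ∀ x ∈ X, x ∉ Z := fun x hx hx' => disjoint_left.1 hXZ hx hx'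
  -- step 2: degree at least three
  obtain ⟨h0, h0i, h0a⟩ := hallY T hT hW (Q.filter fun w => 3 ≤ dg T w)
    (fun w hw => (mem_filter.1 hw).2) R Y hYc g1 (by
      intro w hw x hwx
      have hx := hg1X x (hQn w (mem_filter.1 hw).1 x hwx)
      exact ⟨hY1 _ hx, fun h => hXnZ _ hx (hYZ h)⟩)
  -- step 3: degree two
  have key : ∀ B : Finset W, B ⊆ Q.filter (fun w => ¬ 3 ≤ dg T w) → ∃ h : W → V,
      Set.InjOn h (((Q.filter fun w => 3 ≤ dg T w) ∪ B : Finset W) : Set W) ∧
      ∀ w ∈ (Q.filter fun w => 3 ≤ dg T w) ∪ B, h w ∈ Z ∧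
        ∀ x, T.Adj w x → R.Adj (h w) (g1 x) := by
    intro B
    induction B using Finset.induction_on with
    | empty =>
      intro _
      refine ⟨h0, ?_, ?_⟩
      · rw [union_empty]
        exact h0i
      · intro w hw
        rw [union_empty] at hw
        exact ⟨hYZ (h0a w hw).1, (h0a w hw).2⟩
    | insert w B hwB ih =>
      intro hsub
      obtain ⟨h, hi, ha⟩ := ih ((subset_insert w B).trans hsub)
      have hwQ := mem_filter.1 (hsub (mem_insert_self w B))
      have hw2 : (nb T w univ).card = 2 := by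
        have h1 : 2 ≤ (nb T w univ).card := mem_inner.1 ((mQ w).1 hwQ.1).1.1
        have h2 : ¬ 3 ≤ (nb T w univ).card := hwQ.2
        omega
      obtain ⟨p1, p2, hp, hpe⟩ := card_eq_two.1 hw2
      have hp1 : T.Adj w p1 := (mem_nb.1 (hpe ▸ mem_insert_self p1 {p2} : p1 ∈ nb T w univ)).2
      have hp2 : T.Adj w p2 := (mem_nb.1 (hpe ▸ mem_insert_of_mem (mem_singleton_self p2) :
        p2 ∈ nb T w univ)).2
      have hp1K := hQn w hwQ.1 p1 hp1
      have hp2K := hQn w hwQ.1 p2 hp2
      have hgne : g1 p1 ≠ g1 p2 := fun e => hp (hg1i hp1K hp2K e)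
      obtain ⟨C, hCk, hC⟩ := hk _ (hg1X p1 hp1K) _ (hg1X p2 hp2K) hgne
      set F : Finset W := (Q.filter fun w => 3 ≤ dg T w) ∪ B with hF
      have hwF : w ∉ F := by
        rw [hF, mem_union, mem_filter]
        rintro (h1 | h1)
        · exact hwQ.2 h1.2
        · exact hwB h1
      have hFQ : insert w F ⊆ Q := by
        intro z hz
        rw [mem_insert, hF, mem_union, mem_filter] at hz
        rcases hz with rfl | hz | hz
        · exact hwQ.1
        · exact hz.1
        · exact (mem_filter.1 (hsub (mem_insert_of_mem hz))).1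
      have hFc := card_le_card hFQ
      rw [card_insert_of_notMem hwF] at hFc
      obtain ⟨y, hy⟩ : (C \ F.image h).Nonempty := by
        rw [← card_pos]
        have h1 := le_card_sdiff (F.image h) C
        have h2 : (F.image h).card ≤ F.card := card_image_le
        omega
      rw [mem_sdiff] at hy
      have hyC := hC y hy.1
      have hyF : ∀ z ∈ F, h z ≠ y := fun z hz e => hy.2 (e ▸ mem_image_of_mem h hz)
      have hup : ∀ z ∈ F, Function.update h w y z = h z := fun z hz =>
        Function.update_of_ne (fun e : z = w => hwF (e ▸ hz)) _ _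
      have hself : Function.update h w y w = y := Function.update_self _ _ _
      have hins : (Q.filter fun w => 3 ≤ dg T w) ∪ insert w B = insert w F := by
        rw [hF, union_insert]
      refine ⟨Function.update h w y, ?_, ?_⟩
      · rw [hins]
        intro a haF b hbF hab
        rw [mem_coe, mem_insert] at haF hbF
        rcases haF with rfl | haF
        · rcases hbF with rfl | hbF
          · rfl
          · rw [hself, hup b hbF] at hab
            exact absurd hab.symm (hyF b hbF)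
        · rcases hbF with rfl | hbF
          · rw [hself, hup a haF] at hab
            exact absurd hab (hyF a haF)
          · rw [hup a haF, hup b hbF] at hab
            exact hi (mem_coe.2 haF) (mem_coe.2 hbF) hab
      · intro z hz
        rw [hins, mem_insert] at hz
        rcases hz with rfl | hz
        · rw [hself]
          refine ⟨hyC.1, ?_⟩
          intro x hx
          have hx' : x ∈ nb T z univ := mem_nb.2 ⟨mem_univ _, hx⟩
          rw [hpe, mem_insert, mem_singleton] at hx'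
          rcases hx' with rfl | rfl
          · exact hyC.2.1.symm
          · exact hyC.2.2.symm
        · rw [hup z hz]
          exact ha z hz
  obtain ⟨h, hi, ha⟩ := key _ (Subset.refl _)
  rw [filter_union_filter_not_eq] at hi ha
  -- the map on `K' = K ∪ A ∪ Q`
  have hdis : ∀ w ∈ K ∪ A, w ∉ Q := by
    intro w hw hwQ
    rw [mQ] at hwQ
    rw [mem_union, mA] at hw
    rcases hw with hw | hw
    · exact hwQ.1.2 (hKP w hw hwQ.2)
    · exact hwQ.1.2 hw.1.1
  set g2 : W → V := fun w => if w ∈ Q then h w else g1 w with hg2'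
  have hg2Q : ∀ w ∈ Q, g2 w = h w := fun w hw => if_pos hw
  have hg2K : ∀ w ∈ K ∪ A, g2 w = g1 w := fun w hw => if_neg (hdis w hw)
  have hinn : ∀ w ∈ inner T, w ∈ (K ∪ A) ∪ Q := by
    intro w hw
    rw [mem_union]
    by_cases hwP : w ∈ P
    · left
      rw [mem_union]
      by_cases hwK : w ∈ K
      · exact Or.inl hwK
      · exact Or.inr ((mA w).2 ⟨⟨hwP, fun hwE => hEI w hwE hw⟩, hwK⟩)
    · by_cases hwS : w ∈ S
      · exact Or.inl (mem_union_left _ (hSK hwS))
      · exact Or.inr ((mQ w).2 ⟨⟨hw, hwP⟩, hwS⟩)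
  have hleaf : ∀ w, w ∉ (K ∪ A) ∪ Q → ∃ p, p ∈ inner T ∧ T.Adj w p ∧ ∀ v, T.Adj w v → v = p :=
    fun w hw => leaf_par T hT hW w fun h => hw (hinn w h)
  let par : W → W := fun w => if hw : w ∉ (K ∪ A) ∪ Q then (hleaf w hw).choose else w
  have hpar : ∀ w, w ∉ (K ∪ A) ∪ Q → par w ∈ inner T ∧ T.Adj w (par w) ∧
      ∀ v, T.Adj w v → v = par w := by
    intro w hw
    have h1 : par w = (hleaf w hw).choose := dif_pos hw
    rw [h1]
    exact (hleaf w hw).choose_spec
  refine leaf_ext T R ((K ∪ A) ∪ Q) g2 ?_ ?_ par ?_ ?_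
  · intro a haM b hbM hab
    rw [mem_coe, mem_union] at haM hbM
    rcases haM with haM | haM
    · rcases hbM with hbM | hbM
      · rw [hg2K a haM, hg2K b hbM] at hab
        exact hg1i haM hbM hab
      · exfalso
        rw [hg2K a haM, hg2Q b hbM] at hab
        refine hXnZ _ (hg1X a haM) ?_
        rw [hab]
        exact (ha b hbM).1
    · rcases hbM with hbM | hbM
      · exfalso
        rw [hg2Q a haM, hg2K b hbM] at hab
        refine hXnZ _ (hg1X b hbM) ?_
        rw [← hab]
        exact (ha a haM).1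
      · rw [hg2Q a haM, hg2Q b hbM] at hab
        exact hi haM hbM hab
  · intro a haM b hbM hab
    rw [mem_union] at haM hbM
    rcases haM with haM | haM
    · rcases hbM with hbM | hbM
      · rw [hg2K a haM, hg2K b hbM]
        exact hg1a a haM b hbM hab
      · rw [hg2K a haM, hg2Q b hbM]
        exact ((ha b hbM).2 a hab.symm).symm
    · rcases hbM with hbM | hbM
      · rw [hg2Q a haM, hg2K b hbM]
        exact (ha a haM).2 b hab
      · exfalso
        exact ((mQ a).1 haM).1.2 ((hP a b hab).2 ((mQ b).1 hbM).1.2)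
  · intro w hw
    exact ⟨hinn _ (hpar w hw).1, (hpar w hw).2.2⟩
  · intro w hw
    obtain ⟨h1, h2, -⟩ := hpar w hw
    have h3 : par w ∉ Q := by
      intro h4
      exact hw (mem_union_left _ (hQn _ h4 w h2.symm))
    have h4 : par w ∈ K ∪ A := (mem_union.1 (hinn _ h1)).resolve_right h3
    rw [hg2K _ h4]
    exact hdeg _ (hg1X _ h4)

end Pool.Agent.Lib.MP_0e31aa_co.QQ
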