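import Pool.Agent.Lib.MP_0e31aa_co.QQ.Reroot
import Pool.Agent.Lib.MP_0e31aa_co.H.GreedyK

/-!
Module EmbK (45 min): a subtree on `t = |K| ≥ 2` vertices is embedded into the graph `R[X]` with minimum
degree at least `t - 2`, if some vertex `x₀` of `X` has degree at least `t - 1` in `X`.

Choose `z ∈ K` with `D.dep z` maximal (`z ≠ D.c`), `r = D.par z ∈ K`; `z` has no neighbour in `K` except
`r`. Let `D'` be rooted at `r` (`exists_RT`); by `reroot` `K` is closed under `D'.par`, and so is
`K' = K.erase z` (`z` is not the `D'`-parent of a vertex of `K`: such a vertex is a neighbour of `z` in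
`K`, so it is `r = D'.c`). `greedyK` for `K'` with `A r = {x₀}` and `A w = X` otherwise: at most
`|K'| - 1 = t - 2` vertices of `K'` other than the parent. It gives `g` on `K'` with `g r = x₀`. `x₀` has at
least `t - 1` neighbours in `X`, at most `t - 2` of them are in `g (K')` (`x₀` itself is not a neighbour):
put `z` at a free one (`Function.update`).
-/

set_option autoImplicit false

namespace Pool.Agent.Lib.MP_0e31aa_co.QQ

open Finset
open Pool.Agent.Lib.MP_0e31aa_co.TC (nb mem_nb Emb HasCyc Bip Pth)
open Pool.Agent.Lib.MP_0e31aa_co.H (dg big mem_big inner mem_inner greedyK)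
open Pool.Agent.Lib.MP_c5b475_co (RT exists_RT)

variable {V W : Type}

theorem embK [Fintype V] [DecidableEq V] [Fintype W] [DecidableEq W] (T : SimpleGraph W)
    (hT : T.IsTree) (D : RT T) (K : Finset W) (hc : D.c ∈ K)
    (hK : ∀ x ∈ K, x ≠ D.c → D.par x ∈ K) (h2 : 2 ≤ K.card) (R : SimpleGraph V) (X : Finset V)
    (hX : ∀ x ∈ X, K.card ≤ (nb R x X).card + 2) (x₀ : V) (hx₀ : x₀ ∈ X)
    (h0 : K.card ≤ (nb R x₀ X).card + 1) :
    ∃ g : W → V, Set.InjOn g (K : Set W) ∧ (∀ w ∈ K, g w ∈ X) ∧
      ∀ a ∈ K, ∀ b ∈ K, T.Adj a b → R.Adj (g a) (g b) := by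
  obtain ⟨z, hz, hzmax⟩ := exists_max_image K D.dep ⟨D.c, hc⟩
  have hzc : z ≠ D.c := by
    intro hzc
    obtain ⟨y, hy, hyc⟩ := exists_mem_ne (by omega : 1 < K.card) D.c
    have h1 := D.dep_par y hyc
    have h3 := hzmax y hy
    rw [hzc, D.dep_c] at h3
    omega
  have hrK : D.par z ∈ K := hK z hz hzc
  have hdr := D.dep_par z hzc
  obtain ⟨r, hr⟩ : ∃ r, r = D.par z := ⟨_, rfl⟩
  rw [← hr] at hrK hdr
  have hrz : r ≠ z := by
    intro h; rw [h] at hdr; omega
  have hTzr : T.Adj z r := by
    rw [hr]; exact D.adj_par hzc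
  have hnz : ∀ w ∈ K, T.Adj z w → w = r := by
    intro w hw hzw
    rcases (D.adj_iff z w).1 hzw with ⟨_, h1⟩ | ⟨h1, h3⟩
    · rw [h1, hr]
    · have h4 := D.dep_par w h1
      have h5 := hzmax w hw
      rw [← h3] at h4
      omega
  obtain ⟨D', hD'c, _⟩ := exists_RT hT r
  have hcK' : D'.c ∈ K := by rw [hD'c]; exact hrK
  have hre := reroot D D' K hc hK hcK'
  have hrE : r ∈ K.erase z := mem_erase.2 ⟨hrz, hrK⟩
  have hKe : (K.erase z).card = K.card - 1 := card_erase_of_mem hz
  have hparE : ∀ u ∈ K.erase z, u ≠ D'.c → D'.par u ∈ K.erase z := by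
    intro u hu huc
    have huK := (mem_erase.1 hu).2
    refine mem_erase.2 ⟨?_, hre u huK huc⟩
    intro h1
    have h3 : T.Adj u z := by
      rw [← h1]; exact D'.adj_par huc
    have h4 := hnz u huK h3.symm
    exact huc (by rw [h4, hD'c])
  obtain ⟨g, hginj, hgA, hgadj⟩ := greedyK T D' (K.erase z) (by rw [hD'c]; exact hrE) hparE R
    (fun w => if w = r then {x₀} else X)
    (fun w _ => by
      show (if w = r then ({x₀} : Finset V) else X).Nonempty
      split_ifs
      · exact singleton_nonempty _
      · exact ⟨x₀, hx₀⟩)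
    (fun v hv hvc x hx => by
      have hvr : v ≠ r := fun h => hvc (by rw [h, hD'c])
      have hxX : x ∈ X := by
        have hx' : x ∈ (if D'.par v = r then ({x₀} : Finset V) else X) := hx
        split_ifs at hx' with h1
        · rw [mem_singleton.1 hx']; exact hx₀
        · exact hx'
      have h1 : (if v = r then ({x₀} : Finset V) else X) = X := if_neg hvr
      show _ ≤ (nb R x (if v = r then ({x₀} : Finset V) else X)).card
      rw [h1]
      have h3 := hX x hxX
      have h4 : ((K.erase z).erase (D'.par v)).card = (K.erase z).card - 1 :=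
        card_erase_of_mem (hparE v hv hvc)
      refine le_trans (card_le_card (t := (K.erase z).erase (D'.par v)) ?_) (by omega)
      intro w hw
      rw [mem_filter] at hw
      exact mem_erase.2 ⟨hw.2.1, hw.1⟩)
  have hgr : g r = x₀ := by
    have h1 := hgA r hrE
    simp only [if_true] at h1
    exact mem_singleton.1 h1
  have hgX : ∀ w ∈ K.erase z, g w ∈ X := by
    intro w hw
    have h1 : g w ∈ (if w = r then ({x₀} : Finset V) else X) := hgA w hw
    split_ifs at h1 with h3
    · rw [mem_singleton.1 h1]; exact hx₀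
    · exact h1
  -- a free neighbour of x₀
  obtain ⟨y, hy, hyg⟩ : ∃ y ∈ nb R x₀ X, y ∉ ((K.erase z).erase r).image g := by
    by_contra hcon
    push Not at hcon
    have h1 : (nb R x₀ X).card ≤ (((K.erase z).erase r).image g).card := card_le_card hcon
    have h3 : (((K.erase z).erase r).image g).card ≤ ((K.erase z).erase r).card := card_image_le
    have h4 : ((K.erase z).erase r).card = (K.erase z).card - 1 := card_erase_of_mem hrE
    omega
  have hyX : y ∈ X := (mem_nb.1 hy).1
  have hyadj : R.Adj x₀ y := (mem_nb.1 hy).2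
  have hyg' : ∀ w ∈ K.erase z, g w ≠ y := by
    intro w hw h1
    by_cases hwr : w = r
    · rw [hwr, hgr] at h1
      rw [h1] at hyadj
      exact R.irrefl hyadj
    · exact hyg (mem_image.2 ⟨w, mem_erase.2 ⟨hwr, hw⟩, h1⟩)
  refine ⟨Function.update g z y, ?_, ?_, ?_⟩
  · intro a ha b hb hab
    have ha' : a ∈ K := ha
    have hb' : b ∈ K := hb
    by_cases haz : a = z
    · by_cases hbz : b = z
      · rw [haz, hbz]
      · rw [haz, Function.update_self, Function.update_of_ne hbz] at hab
        exact absurd hab.symm (hyg' b (mem_erase.2 ⟨hbz, hb'⟩))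
    · by_cases hbz : b = z
      · rw [hbz, Function.update_self, Function.update_of_ne haz] at hab
        exact absurd hab (hyg' a (mem_erase.2 ⟨haz, ha'⟩))
      · rw [Function.update_of_ne haz, Function.update_of_ne hbz] at hab
        exact hginj (mem_coe.2 (mem_erase.2 ⟨haz, ha'⟩)) (mem_coe.2 (mem_erase.2 ⟨hbz, hb'⟩)) hab
  · intro w hw
    by_cases hwz : w = z
    · rw [hwz, Function.update_self]; exact hyX
    · rw [Function.update_of_ne hwz]; exact hgX w (mem_erase.2 ⟨hwz, hw⟩)
  · intro a ha b hb hab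
    by_cases haz : a = z
    · rw [haz] at hab ⊢
      have hbr := hnz b hb hab
      rw [hbr, Function.update_self, Function.update_of_ne hrz, hgr]
      exact hyadj.symm
    · by_cases hbz : b = z
      · rw [hbz] at hab ⊢
        have har := hnz a ha hab.symm
        rw [har, Function.update_self, Function.update_of_ne hrz, hgr]
        exact hyadj
      · rw [Function.update_of_ne haz, Function.update_of_ne hbz]
        exact hgadj a (mem_erase.2 ⟨haz, ha⟩) b (mem_erase.2 ⟨hbz, hb⟩) hab

end Pool.Agent.Lib.MP_0e31aa_co.QQ
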