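import Pool.Agent.Lib.MP_0e31aa_co.TC.Lower

/-!
# The second lower bound

If `m + p > 2 n`, where both classes of the tree `T` have at least `p ≥ 1` vertices, there is a
colouring of `K_(2 n - 1)` without blue `C_m` and without red `T`: red between `p - 1` vertices and
the other `2 n - p ≤ m - 1` vertices.
-/

set_option autoImplicit false

namespace Pool.Agent.Lib.MP_0e31aa_co.QQ

open Finset
open Pool.Agent.Lib.MP_0e31aa_co.TC (Emb HasCyc Bip hasCyc_iff sepGraph adj_sepCompl)

theorem lower_class (m n p : ℕ) (hp : 1 ≤ p) (T : SimpleGraph (Fin n))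
    (hT : T.IsTree) (P : Finset (Fin n)) (hP : Bip T P) (h1 : p ≤ P.card)
    (h2 : p + P.card ≤ n) (hmn : 2 * n + 1 ≤ m + p) :
    ∃ B : SimpleGraph (Fin (2 * n - 1)), ¬ HasCyc B m ∧ ¬ Emb T Bᶜ := by
  classical
  refine ⟨(sepGraph (fun i : Fin (2 * n - 1) => i.val < p - 1))ᶜ, ?_, ?_⟩
  · rw [hasCyc_iff _ _ (by omega)]
    rintro ⟨g, hg, hc, -⟩
    have key : ∀ (i : ℕ) (hi : i < m),
        ((g ⟨i, hi⟩).val < p - 1 ↔ (g ⟨0, by omega⟩).val < p - 1) := by
      intro i
      induction i with
      | zero => intro hi; exact Iff.rfl
      | succ i ih =>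
        intro hi
        exact (adj_sepCompl (hc i hi)).symm.trans (ih (by omega))
    by_cases h0 : (g ⟨0, by omega⟩).val < p - 1
    · have hcard := Finset.card_le_card_of_injOn (s := (univ : Finset (Fin m)))
        (t := Finset.range (p - 1)) (fun u => (g u).val)
        (fun u _ => by simpa using (key u.val u.2).2 h0)
        (fun u _ v _ huv => hg (Fin.ext huv))
      rw [Finset.card_univ, Fintype.card_fin, Finset.card_range] at hcard
      omega
    · have hcard := Finset.card_le_card_of_injOn (s := (univ : Finset (Fin m)))
        (t := Finset.range (2 * n - p)) (fun u => (g u).val - (p - 1))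
        (fun u _ => by
          have h1 := (key u.val u.2).not.2 h0
          have h2 := (g u).2
          simp only [Finset.coe_range, Set.mem_Iio]
          omega)
        (fun u _ v _ huv => hg (Fin.ext (by
          have h1 : ¬ (g u).val < p - 1 := (key u.val u.2).not.2 h0
          have h2 : ¬ (g v).val < p - 1 := (key v.val v.2).not.2 h0
          simp only at huv
          omega)))
      rw [Finset.card_univ, Fintype.card_fin, Finset.card_range] at hcard
      omega
  · rw [compl_compl]
    rintro ⟨f, hf, hadj⟩
    have hconst : ∀ u v : Fin n,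
        ((f u).val < p - 1 ↔ ((f v).val < p - 1 ↔ (u ∈ P ↔ v ∈ P))) := by
      intro u v
      obtain ⟨w⟩ := hT.connected.preconnected u v
      induction w with
      | nil => simp
      | @cons a b c h w ih =>
        have h3 : ¬ ((f a).val < p - 1 ↔ (f b).val < p - 1) := hadj _ _ h
        have h4 := hP a b h
        tauto
    have hn0 : 0 < P.card := by omega
    obtain ⟨a, ha⟩ := Finset.card_pos.1 hn0
    by_cases h0 : (f a).val < p - 1
    · have hall : ∀ u ∈ P, (f u).val < p - 1 := by
        intro u hu
        have := hconst u a
        tauto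
      have hc := Finset.card_le_card_of_injOn (s := P)
        (t := Finset.range (p - 1)) (fun u => (f u).val)
        (fun u hu => by simpa using hall u hu)
        (fun u _ v _ huv => hf (Fin.ext huv))
      rw [Finset.card_range] at hc
      omega
    · have hall : ∀ u ∈ Pᶜ, (f u).val < p - 1 := by
        intro u hu
        rw [mem_compl] at hu
        have := hconst u a
        tauto
      have hc := Finset.card_le_card_of_injOn (s := Pᶜ)
        (t := Finset.range (p - 1)) (fun u => (f u).val)
        (fun u hu => by simpa using hall u hu)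
        (fun u _ v _ huv => hf (Fin.ext huv))
      rw [Finset.card_range, Finset.card_compl, Fintype.card_fin] at hc
      omega

end Pool.Agent.Lib.MP_0e31aa_co.QQ
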