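import Pool.Agent.Lib.MP_0e31aa_co.QQ.Main
import Pool.Agent.Lib.MP_0e31aa_co.QQ.LowerP
import Pool.Agent.Lib.MP_0e31aa_co.TC.Lower

/-!
# Tree versus odd cycle Ramsey numbers: the exact range for every tree

For every odd `m ≥ 5`, `R(T, C_m) = 2 n - 1` for every `n ≥ ⌈(2 m - 1) / 3⌉` and every tree `T` on
`n` vertices, and this threshold is best possible for every `m`. More precisely, for every tree `T`
on `n ≥ 2` vertices with colour classes of `p ≤ q` vertices, `R(T, C_m) = 2 n - 1` if and only if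
`m + p ≤ 2 n`.
-/

set_option autoImplicit false

namespace Pool.Agent.Lib.MP_0e31aa_co.QQ.Rng

open Finset
open Pool.Agent.Lib.MP_0e31aa_co.TC (HasCyc Emb Bip cyc_contained emb_contained lower lower_path)

/-- The Ramsey number `R(G, H)`: the least positive `N` such that every colouring of the edges of
`K_N` (given by its blue graph `B`, the red graph is the complement of `B`) contains a red copy of
`G` or a blue copy of `H`. (It is `0` if there is no such `N`; the theorem below shows in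
particular that there is one in the cases considered.) -/
noncomputable def ramsey {α β : Type} (G : SimpleGraph α) (H : SimpleGraph β) : ℕ :=
  sInf {N : ℕ | 0 < N ∧ ∀ B : SimpleGraph (Fin N), G.IsContained Bᶜ ∨ H.IsContained B}

theorem ramsey_eq (m n : ℕ) (hn : 1 ≤ n) (hm : Odd m) (hm3 : 3 ≤ m) (T : SimpleGraph (Fin n))
    (hT : T.IsTree) (h : ∀ B : SimpleGraph (Fin (2 * n - 1)), HasCyc B m ∨ Emb T Bᶜ) :
    ramsey T (SimpleGraph.cycleGraph m) = 2 * n - 1 := by
  have hleast : IsLeast {N : ℕ | 0 < N ∧ ∀ B : SimpleGraph (Fin N), T.IsContained Bᶜ ∨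
      (SimpleGraph.cycleGraph m).IsContained B} (2 * n - 1) := by
    refine ⟨⟨by omega, fun B => ?_⟩, ?_⟩
    · rcases h B with h | h
      · exact Or.inr ((cyc_contained B m hm3).1 h)
      · exact Or.inl ((emb_contained T Bᶜ).1 h)
    · rintro N ⟨_, hN⟩
      by_contra hlt
      obtain ⟨B, hB1, hB2⟩ := lower m n N hm hm3 hn (by omega) T hT
      rcases hN B with h | h
      · exact hB2 ((emb_contained T Bᶜ).2 h)
      · exact hB1 ((cyc_contained B m hm3).2 h)
  exact hleast.csInf_eq

theorem pathGraph_isTree (n : ℕ) : (SimpleGraph.pathGraph (n + 1)).IsTree := by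
  rw [SimpleGraph.isTree_iff_connected_and_card]
  refine ⟨SimpleGraph.pathGraph_connected n,
    le_antisymm ?_ (SimpleGraph.pathGraph_connected n).card_vert_le_card_edgeSet_add_one⟩
  have h : Function.Surjective (fun i : Fin n =>
      (⟨s(i.castSucc, i.succ), by
        rw [SimpleGraph.mem_edgeSet, SimpleGraph.pathGraph_adj]; left; simp⟩ :
        (SimpleGraph.pathGraph (n + 1)).edgeSet)) := by
    rintro ⟨e, he⟩
    induction e with
    | _ u v =>
      rw [SimpleGraph.mem_edgeSet, SimpleGraph.pathGraph_adj] at he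
      rcases he with he | he
      · refine ⟨⟨u.1, by have := v.2; omega⟩, ?_⟩
        apply Subtype.ext
        simp only [Sym2.eq_iff]
        left
        exact ⟨Fin.ext rfl, Fin.ext (by simpa using he)⟩
      · refine ⟨⟨v.1, by have := u.2; omega⟩, ?_⟩
        apply Subtype.ext
        simp only [Sym2.eq_iff]
        right
        exact ⟨Fin.ext rfl, Fin.ext (by simpa using he)⟩
  have h2 : Nat.card (SimpleGraph.pathGraph (n + 1)).edgeSet ≤ Nat.card (Fin n) :=
    Nat.card_le_card_of_surjective _ h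
  rw [Nat.card_fin] at h2
  rw [Nat.card_fin]
  omega

/-- If `R(T, C_m) = 2 n - 1` then every colouring of `K_(2 n - 1)` has a red `T` or a blue
`C_m`. -/
theorem of_ramsey_eq (m n : ℕ) (hn : 1 ≤ n) (hm3 : 3 ≤ m) (T : SimpleGraph (Fin n))
    (h : ramsey T (SimpleGraph.cycleGraph m) = 2 * n - 1) (B : SimpleGraph (Fin (2 * n - 1))) :
    HasCyc B m ∨ Emb T Bᶜ := by
  have hne : {N : ℕ | 0 < N ∧ ∀ B : SimpleGraph (Fin N), T.IsContained Bᶜ ∨
      (SimpleGraph.cycleGraph m).IsContained B}.Nonempty := by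
    apply Nat.nonempty_of_pos_sInf
    unfold ramsey at h
    omega
  have hmem := Nat.sInf_mem hne
  unfold ramsey at h
  rw [h] at hmem
  rcases hmem.2 B with h | h
  · exact Or.inr ((emb_contained T Bᶜ).2 h)
  · exact Or.inl ((cyc_contained B m hm3).2 h)

theorem bip_toFinset {n : ℕ} {T : SimpleGraph (Fin n)} {P : Set (Fin n)}
    (hP : T.IsBipartiteWith P Pᶜ) (Q : Finset (Fin n)) (hQ : ∀ v, v ∈ Q ↔ v ∈ P) : Bip T Q := by
  intro u v huv
  have h1 := hP.mem_of_adj huv
  rw [hQ, hQ]
  rcases h1 with ⟨h1, h2⟩ | ⟨h1, h2⟩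
  · exact ⟨fun _ => h2, fun _ => h1⟩
  · exact ⟨fun h3 => absurd h3 h1, fun h3 => absurd h2 h3⟩

/-- The exact range for every tree. -/
theorem range_iff (m n : ℕ) (hm : Odd m) (hm5 : 5 ≤ m) (hn : 2 ≤ n) (T : SimpleGraph (Fin n))
    (hT : T.IsTree) (P : Set (Fin n)) (hP : T.IsBipartiteWith P Pᶜ) :
    ramsey T (SimpleGraph.cycleGraph m) = 2 * n - 1 ↔
      m + min P.ncard Pᶜ.ncard ≤ 2 * n := by
  classical
  have hPc : P.ncard = P.toFinset.card := Set.ncard_eq_toFinset_card' P
  have hPc' : Pᶜ.ncard = (P.toFinset)ᶜ.card := by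
    rw [Set.ncard_eq_toFinset_card', Set.toFinset_compl]
  have hB : Bip T P.toFinset := bip_toFinset hP _ fun v => Set.mem_toFinset
  have hB' : Bip T (P.toFinset)ᶜ := by
    intro u v huv
    rw [Finset.mem_compl, Finset.mem_compl, hB u v huv]
  have hcc : (P.toFinsetᶜ).card + P.toFinset.card = n := by
    rw [Finset.card_compl, Fintype.card_fin]
    have := Finset.card_le_univ P.toFinset
    rw [Fintype.card_fin] at this
    omega
  rw [hPc, hPc']
  constructor
  · intro h
    by_contra hcon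
    rw [not_le] at hcon
    -- both classes are nonempty
    have hpos : 1 ≤ min P.toFinset.card (P.toFinsetᶜ).card := by
      haveI : Nontrivial (Fin n) := Fin.nontrivial_iff_two_le.2 hn
      obtain ⟨v, hv⟩ := hT.connected.preconnected.exists_adj_of_nontrivial ⟨0, by omega⟩
      have h1 := hB _ _ hv
      by_cases h2 : (⟨0, by omega⟩ : Fin n) ∈ P.toFinset
      · have h3 : v ∈ P.toFinsetᶜ := Finset.mem_compl.2 (h1.1 h2)
        exact le_min (Finset.card_pos.2 ⟨_, h2⟩) (Finset.card_pos.2 ⟨_, h3⟩)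
      · have h3 : v ∈ P.toFinset := by
          by_contra h4
          exact h2 (h1.2 h4)
        exact le_min (Finset.card_pos.2 ⟨_, h3⟩) (Finset.card_pos.2 ⟨_, Finset.mem_compl.2 h2⟩)
    obtain ⟨B, hB1, hB2⟩ := Pool.Agent.Lib.MP_0e31aa_co.QQ.lower_class m n _ hpos T hT P.toFinset hB (min_le_left _ _)
      (by have := min_le_right P.toFinset.card (P.toFinsetᶜ).card; omega) (by omega)
    rcases of_ramsey_eq m n (by omega) (by omega) T h B with h | h
    · exact hB1 h
    · exact hB2 h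
  · intro h
    refine ramsey_eq m n (by omega) hm (by omega) T hT fun B => ?_
    have hW : Fintype.card (Fin n) = n := Fintype.card_fin n
    have hV : Fintype.card (Fin (2 * n - 1)) + 1 = 2 * n := by rw [Fintype.card_fin]; omega
    by_cases hc : 2 * P.toFinset.card ≤ n
    · have : min P.toFinset.card (P.toFinsetᶜ).card = P.toFinset.card := min_eq_left (by omega)
      exact Pool.Agent.Lib.MP_0e31aa_co.QQ.main B n m hm hm5 hV hW T hT _ hB hc (by omega)
    · have : min P.toFinset.card (P.toFinsetᶜ).card = (P.toFinsetᶜ).card :=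
        min_eq_right (by omega)
      exact Pool.Agent.Lib.MP_0e31aa_co.QQ.main B n m hm hm5 hV hW T hT _ hB' (by omega) (by omega)

/-- `f(m) = ⌈(2 m - 1) / 3⌉` for all odd `m ≥ 5`; and, for every tree, `R(T, C_m) = 2 n - 1` if and
only if `m + p ≤ 2 n`, where `p` is the size of the smaller colour class. -/
theorem f_eq_and_range (m : ℕ) (hodd : Odd m) (hm : 5 ≤ m) :
    IsLeast {f : ℕ | ∀ n : ℕ, f ≤ n → ∀ T : SimpleGraph (Fin n), T.IsTree →
      ramsey T (SimpleGraph.cycleGraph m) = 2 * n - 1} ⌈(2 * (m : ℚ) - 1) / 3⌉₊ ∧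
    ∀ n : ℕ, 2 ≤ n → ∀ T : SimpleGraph (Fin n), T.IsTree → ∀ P : Set (Fin n),
      T.IsBipartiteWith P Pᶜ →
        (ramsey T (SimpleGraph.cycleGraph m) = 2 * n - 1 ↔
          m + min P.ncard Pᶜ.ncard ≤ 2 * n) := by
  classical
  refine ⟨⟨?_, ?_⟩, fun n hn T hT P hP => range_iff m n hodd hm hn T hT P hP⟩
  · intro n hn T hT
    rw [Nat.ceil_le, div_le_iff₀ (by norm_num)] at hn
    have hn' : 2 * m ≤ 3 * n + 1 := by
      have : (2 * m : ℚ) ≤ 3 * n + 1 := by linarith
      exact_mod_cast this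
    exact ramsey_eq m n (by omega) hodd (by omega) T hT fun B =>
      Pool.Agent.Lib.MP_0e31aa_co.QQ.main_all m n hodd hm hn' T hT B
  · intro f hf
    rw [Nat.ceil_le, div_le_iff₀ (by norm_num)]
    by_contra hlt
    rw [not_le] at hlt
    -- the largest `n` below the threshold
    have hlt' : 3 * f + 1 < 2 * m := by
      have : (3 * f + 1 : ℚ) < 2 * m := by linarith
      exact_mod_cast this
    obtain ⟨n, hn1, hn2, hn3⟩ : ∃ n : ℕ, f ≤ n ∧ 2 ≤ n ∧ 3 * n + 1 < 2 * m :=
      ⟨max f 2, le_max_left _ _, le_max_right _ _, by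
        rcases max_choice f 2 with h | h <;> rw [h] <;> omega⟩
    obtain ⟨k, rfl⟩ : ∃ k, n = k + 1 := ⟨n - 1, by omega⟩
    have hr := hf (k + 1) hn1 (SimpleGraph.pathGraph (k + 1)) (pathGraph_isTree k)
    obtain ⟨B, hB1, hB2⟩ := lower_path m (k + 1) hodd (by omega) hn2 hn3
    rcases of_ramsey_eq m (k + 1) (by omega) (by omega) _ hr B with h | h
    · exact hB1 h
    · exact hB2 h

end Pool.Agent.Lib.MP_0e31aa_co.QQ.Rng
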