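import Pool.Agent.Lib.MP_0e31aa_co.QQ.Deg
import Mathlib.Combinatorics.Hall.Basic

/-!
Module HallY (45 min): the vertices of degree at least three are placed in `Y` by Hall's theorem.

For `w ∈ A` the allowed set is `t w` = the `y ∈ Y` with `R.Adj y (g x)` for all neighbours `x` of `w`; each
neighbour forbids at most one `y` (`hg`), so `|t w| ≥ |Y| - deg w`. For a nonempty `A' ⊆ A` let `w` be a
vertex of `A'` of least degree `d`: `|⋃ t| ≥ |t w| ≥ |Y| - d ≥ |A'|` by `card_deg` for `A'` and `hY`. Hall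
(`Finset.all_card_le_biUnion_card_iff_exists_injective` on the subtype of `A`) gives `h`.
-/

set_option autoImplicit false

namespace Pool.Agent.Lib.MP_0e31aa_co.QQ

open Finset
open Pool.Agent.Lib.MP_0e31aa_co.TC (nb mem_nb Emb HasCyc Bip Pth)
open Pool.Agent.Lib.MP_0e31aa_co.H (dg big mem_big inner mem_inner)

variable {V W : Type}

private theorem HallY_card [Fintype V] [DecidableEq V] [Fintype W] [DecidableEq W]
    (T : SimpleGraph W) (R : SimpleGraph V) (Y : Finset V) (g : W → V) (w : W)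
    (hg : ∀ x, T.Adj w x → (nb Rᶜ (g x) Y).card ≤ 1 ∧ g x ∉ Y) (t : Finset V)
    (ht : ∀ y, y ∈ t ↔ y ∈ Y ∧ ∀ x, T.Adj w x → R.Adj y (g x)) :
    Y.card ≤ t.card + dg T w := by
  have h1 : Y \ t ⊆ (nb T w univ).biUnion fun x => nb Rᶜ (g x) Y := by
    intro y hy
    rw [mem_sdiff] at hy
    have h2 : ¬ ∀ x, T.Adj w x → R.Adj y (g x) := fun h => hy.2 ((ht y).2 ⟨hy.1, h⟩)
    push Not at h2
    obtain ⟨x, hx, hnot⟩ := h2
    rw [mem_biUnion]
    refine ⟨x, mem_nb.2 ⟨mem_univ x, hx⟩, mem_nb.2 ⟨hy.1, ?_⟩⟩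
    rw [SimpleGraph.compl_adj]
    exact ⟨fun e => (hg x hx).2 (e ▸ hy.1), fun e => hnot e.symm⟩
  have h2 : (Y \ t).card ≤ dg T w := by
    calc (Y \ t).card ≤ ((nb T w univ).biUnion fun x => nb Rᶜ (g x) Y).card := card_le_card h1
      _ ≤ ∑ x ∈ nb T w univ, (nb Rᶜ (g x) Y).card := card_biUnion_le
      _ ≤ ∑ _x ∈ nb T w univ, 1 := sum_le_sum fun x hx => (hg x (mem_nb.1 hx).2).1
      _ = dg T w := by rw [sum_const, smul_eq_mul, mul_one]; rfl
  have h3 : Y.card ≤ (Y \ t).card + t.card := by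
    calc Y.card ≤ ((Y \ t) ∪ t).card := card_le_card (by
          intro y hy
          rw [mem_union, mem_sdiff]
          by_cases h : y ∈ t
          · exact Or.inr h
          · exact Or.inl ⟨hy, h⟩)
      _ ≤ (Y \ t).card + t.card := card_union_le _ _
  omega

theorem hallY [Fintype V] [DecidableEq V] [Fintype W] [DecidableEq W] (T : SimpleGraph W)
    (hT : T.IsTree) (hW : 3 ≤ Fintype.card W) (A : Finset W) (hA : ∀ w ∈ A, 3 ≤ dg T w)
    (R : SimpleGraph V) (Y : Finset V) (hY : Fintype.card W + 1 ≤ Y.card + (inner T).card)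
    (g : W → V) (hg : ∀ w ∈ A, ∀ x, T.Adj w x → (nb Rᶜ (g x) Y).card ≤ 1 ∧ g x ∉ Y) :
    ∃ h : W → V, Set.InjOn h (A : Set W) ∧
      ∀ w ∈ A, h w ∈ Y ∧ ∀ x, T.Adj w x → R.Adj (h w) (g x) := by
  classical
  set t : {w // w ∈ A} → Finset V := fun w =>
    Y.filter fun y => ∀ x, T.Adj w.1 x → R.Adj y (g x) with ht
  have hall : ∀ s : Finset {w // w ∈ A}, s.card ≤ (s.biUnion t).card := by
    intro s
    rcases s.eq_empty_or_nonempty with h0 | hne
    · rw [h0]; simp
    · obtain ⟨w, hw, hmin⟩ := exists_min_image s (fun w => dg T w.1) hne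
      have h1 := card_deg T hT hW (s.image Subtype.val) (hne.image _) (dg T w.1) (hA w.1 w.2) (by
        intro x hx
        obtain ⟨y, hy, rfl⟩ := mem_image.1 hx
        exact hmin y hy)
      rw [card_image_of_injective _ Subtype.val_injective] at h1
      have h2 := HallY_card T R Y g w.1 (hg w.1 w.2) (t w) (by
        intro y
        rw [ht]
        simp only [mem_filter])
      have h3 : (t w).card ≤ (s.biUnion t).card := card_le_card (subset_biUnion_of_mem t hw)
      omega
  obtain ⟨f, hf, hft⟩ := (all_card_le_biUnion_card_iff_exists_injective t).1 hall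
  refine ⟨fun w => if hw : w ∈ A then f ⟨w, hw⟩ else g w, ?_, ?_⟩
  · intro a ha b hb hab
    rw [Finset.mem_coe] at ha hb
    simp only [dif_pos ha, dif_pos hb] at hab
    exact congrArg Subtype.val (hf hab)
  · intro w hw
    have h1 := hft ⟨w, hw⟩
    simp only [dif_pos hw]
    rw [ht] at h1
    simp only [mem_filter] at h1
    exact h1

end Pool.Agent.Lib.MP_0e31aa_co.QQ
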