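import Pool.Agent.Lib.MP_0e31aa_co.H.GreedyK
import Pool.Agent.Lib.MP_0e31aa_co.HH.LemS

/-!
Module TreeK (75 min): the part `K` of the tree.

`P` a class with `2 |P| ≤ n`, `Q1 = inner T \ P`, `1 ≤ r ≤ |Q1|`. Put `q1 = |Q1|`, `p = |P|`.
`forest_bip` (HH/LemS.lean) for `Q1` and `P`: `∑_{Q1} deg + 1 ≤ q1 + p` (all neighbours of `Q1` are in `P`).
Case 1: at least two vertices outside `P ∪ inner T` (leaves of the other class), i.e.
`p + q1 + 2 ≤ n`. Root `c` any vertex of `Q1`, no excluded vertex (`E = ∅`).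
Case 2: otherwise. As `deg ≥ 2` on `Q1`, `2 q1 + 1 ≤ q1 + p`, so `q1 + 1 ≤ p`, and `n ≤ p + q1 + 1`, `2 p ≤ n`
give `n = 2 p`, `q1 = p - 1` and exactly one leaf outside `P`; so `∑_{Q1} deg ≤ 2 q1`, all degrees in
`Q1` are 2. `T` has at least two leaves, so there is a leaf `y ∈ P`; root `c` = its neighbour (in `Q1`, by
`leaf_par`), `E = {y}`.
`D` rooted at `c ∈ Q1` (`exists_RT`). `S ⊆ Q1` with `c ∈ S`, `|S| = r`, and `b ∈ S`, `b' ∈ Q1`,
`D.dep b' < D.dep b` imply `b' ∈ S` (the `r` vertices of `Q1` nearest to `c`: induction on `r`, add a vertex of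
`Q1 \ S` with `D.dep` minimal). `K = S ∪ (N(S) \ E)`.
Closed: for `b ∈ S`, `b ≠ c`, `D.par b` is a neighbour of `b`, not `y` (a leaf is no parent except the root).
For `x ∈ N(S)`: `x ≠ c` (`x ∈ P`), `x ~ b ∈ S`: `D.par x = b`, or `D.par b = x` and `b' = D.par x` has smaller
depth, is not in `P`, and is in `inner T` (`b' = c` or it has a parent and the child `x`), so `b' ∈ S`.
Size: every `x ∈ N(S)` is a `D`-child of a vertex of `S` (shown just now), so
`|N(S)| ≤ ∑_{b ∈ S} (number of children of b) = 1 + ∑_{b ∈ S} (deg b - 1)`. So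
`|K| ≤ r + 1 + ∑_S (deg - 1) - |E| = 2 r + 1 + ∑_S (deg - 2) - |E|`. Case 1: `∑_S (deg - 2) ≤ ∑_{Q1} (deg - 2) ≤
p - 1 - q1`, so `|K| + 2 q1 + 2 ≤ 2 r + p + q1 + 2 ≤ 2 r + n`. Case 2: `|K| ≤ 2 r`, `2 q1 + 2 = n`.
`2 ≤ |K|`: `c` and a neighbour of `c` other than `y` (`deg c ≥ 2`).
-/

set_option autoImplicit false

namespace Pool.Agent.Lib.MP_0e31aa_co.QQ

open Finset
open Pool.Agent.Lib.MP_0e31aa_co.TC (nb mem_nb Emb HasCyc Bip Pth)
open Pool.Agent.Lib.MP_0e31aa_co.H (dg big mem_big inner mem_inner leaf_par inner_closed)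
open Pool.Agent.Lib.MP_0e31aa_co.HH (forest_bip)
open Pool.Agent.Lib.MP_c5b475_co (RT exists_RT)

variable {V W : Type}

/-- The `r` vertices of `Q1` nearest to the root. -/
private theorem treeK_sel [Fintype W] [DecidableEq W] {T : SimpleGraph W} (D : RT T)
    (Q1 : Finset W) (hc : D.c ∈ Q1) (r : ℕ) (hr : 1 ≤ r) (hr' : r ≤ Q1.card) :
    ∃ S : Finset W, S ⊆ Q1 ∧ D.c ∈ S ∧ S.card = r ∧
      ∀ b ∈ S, ∀ b' ∈ Q1, D.dep b' < D.dep b → b' ∈ S := by
  induction r, hr using Nat.le_induction with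
  | base =>
    refine ⟨{D.c}, by simpa using hc, mem_singleton_self _, card_singleton _, ?_⟩
    intro b hb b' _ h
    rw [mem_singleton.1 hb, D.dep_c] at h
    omega
  | succ r _ ih =>
    obtain ⟨S, hS, hcS, hSr, hmin⟩ := ih (by omega)
    have hne : (Q1 \ S).Nonempty := by
      rw [← card_pos, card_sdiff_of_subset hS]
      omega
    obtain ⟨b0, hb0, hb0min⟩ := exists_min_image (Q1 \ S) D.dep hne
    rw [mem_sdiff] at hb0
    refine ⟨insert b0 S, insert_subset hb0.1 hS, mem_insert_of_mem hcS, ?_, ?_⟩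
    · rw [card_insert_of_notMem hb0.2, hSr]
    · intro b hb b' hb' h
      rw [mem_insert] at hb ⊢
      rcases hb with rfl | hb
      · by_contra hcon
        push Not at hcon
        have := hb0min b' (mem_sdiff.2 ⟨hb', hcon.2⟩)
        omega
      · exact Or.inr (hmin b hb b' hb' h)

private theorem treeK_core [Fintype W] [DecidableEq W] (T : SimpleGraph W) (hT : T.IsTree)
    (P : Finset W) (hP : Bip T P) (D : RT T) (hc : D.c ∈ inner T \ P) (E : Finset W)
    (hE : ∀ y ∈ E, T.Adj D.c y ∧ y ∉ inner T) (hE1 : E.card ≤ 1)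
    (r : ℕ) (hr : 1 ≤ r) (hr' : r ≤ (inner T \ P).card) :
    ∃ K S : Finset W, D.c ∈ K ∧ (∀ x ∈ K, x ≠ D.c → D.par x ∈ K) ∧
      S ⊆ inner T \ P ∧ S.card = r ∧ S ⊆ K ∧ (∀ w ∈ K, w ∉ S → w ∈ P) ∧
      (∀ b ∈ S, ∀ x, T.Adj b x → x ∈ K ∨ x ∉ inner T) ∧ 2 ≤ K.card ∧
      K.card + E.card + 2 * (inner T \ P).card ≤ (inner T \ P).card + P.card + 2 * r := by
  obtain ⟨S, hS, hcS, hSr, hmin⟩ := treeK_sel D (inner T \ P) hc r hr hr'
  have hci : D.c ∈ inner T := (mem_sdiff.1 hc).1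
  have hcP : D.c ∉ P := (mem_sdiff.1 hc).2
  have hinn : ∀ u, u ≠ D.c → D.par u ∈ inner T :=
    inner_closed T D (inner T) (Subset.refl _) hci
  set N : Finset W := S.biUnion fun b => nb T b univ with hN
  have mN : ∀ x, x ∈ N ↔ ∃ b ∈ S, T.Adj b x := by
    intro x
    rw [hN, mem_biUnion]
    constructor
    · rintro ⟨b, hb, h⟩
      exact ⟨b, hb, (mem_nb.1 h).2⟩
    · rintro ⟨b, hb, h⟩
      exact ⟨b, hb, mem_nb.2 ⟨mem_univ _, h⟩⟩
  have hNP : ∀ x ∈ N, x ∈ P := by
    intro x hx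
    obtain ⟨b, hb, h⟩ := (mN x).1 hx
    have hbP : b ∉ P := (mem_sdiff.1 (hS hb)).2
    by_contra hxP
    exact hbP ((hP b x h).2 hxP)
  have hNc : ∀ x ∈ N, x ≠ D.c := fun x hx e => hcP (e ▸ hNP x hx)
  have hpar : ∀ x ∈ N, D.par x ∈ S := by
    intro x hx
    obtain ⟨b, hb, h⟩ := (mN x).1 hx
    rcases (D.adj_iff b x).1 h with ⟨h1, h2⟩ | ⟨h1, h2⟩
    · have h3 := D.dep_par b h1
      rw [← h2] at h3
      have h4 := D.dep_par x (hNc x hx)
      have h5 := D.adj_par (hNc x hx)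
      refine hmin b hb (D.par x) (mem_sdiff.2 ⟨hinn x (hNc x hx), ?_⟩) (by omega)
      exact (hP x (D.par x) h5).1 (hNP x hx)
    · rw [← h2]
      exact hb
  have hEN : E ⊆ N := fun y hy => (mN y).2 ⟨D.c, hcS, (hE y hy).1⟩
  refine ⟨S ∪ (N \ E), S, mem_union_left _ hcS, ?_, hS, hSr, subset_union_left, ?_, ?_, ?_, ?_⟩
  · intro x hx hxc
    rw [mem_union, mem_sdiff] at hx ⊢
    rcases hx with hx | ⟨hx, -⟩
    · refine Or.inr ⟨(mN _).2 ⟨x, hx, D.adj_par hxc⟩, ?_⟩
      intro h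
      exact (hE _ h).2 (hinn x hxc)
    · exact Or.inl (hpar x hx)
  · intro w hw hwS
    rw [mem_union, mem_sdiff] at hw
    rcases hw with hw | ⟨hw, -⟩
    · exact absurd hw hwS
    · exact hNP w hw
  · intro b hb x hx
    have hxN : x ∈ N := (mN x).2 ⟨b, hb, hx⟩
    by_cases hxE : x ∈ E
    · exact Or.inr (hE x hxE).2
    · exact Or.inl (mem_union_right _ (mem_sdiff.2 ⟨hxN, hxE⟩))
  · have h1 : 2 ≤ (nb T D.c univ).card := mem_inner.1 hci
    obtain ⟨x, hx⟩ : (nb T D.c univ \ E).Nonempty := by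
      rw [← card_pos]
      have := le_card_sdiff E (nb T D.c univ)
      omega
    rw [mem_sdiff, mem_nb] at hx
    have hxN : x ∈ N := (mN x).2 ⟨D.c, hcS, hx.1.2⟩
    have h2 : ({D.c, x} : Finset W) ⊆ S ∪ (N \ E) := by
      intro z hz
      rw [mem_insert, mem_singleton] at hz
      rcases hz with rfl | rfl
      · exact mem_union_left _ hcS
      · exact mem_union_right _ (mem_sdiff.2 ⟨hxN, hx.2⟩)
    have h3 := card_le_card h2
    rw [card_pair hx.1.2.ne] at h3
    exact h3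
  · -- the size
    have h1 : (S ∪ (N \ E)).card ≤ S.card + (N \ E).card := card_union_le _ _
    have h2 : (N \ E).card + E.card = N.card := card_sdiff_add_card_eq_card hEN
    have h3 : N.card + S.card ≤ ∑ b ∈ S, dg T b + 1 := by
      have h4 : N ⊆ S.biUnion fun b => (nb T b univ).filter fun x => D.par x = b ∧ x ≠ D.c := by
        intro x hx
        rw [mem_biUnion]
        refine ⟨D.par x, hpar x hx, ?_⟩
        rw [mem_filter, mem_nb]
        exact ⟨⟨mem_univ _, (D.adj_par (hNc x hx)).symm⟩, rfl, hNc x hx⟩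
      have h5 := (card_le_card h4).trans card_biUnion_le
      have h6 : ∀ b ∈ S.erase D.c,
          ((nb T b univ).filter fun x => D.par x = b ∧ x ≠ D.c).card + 1 ≤ dg T b := by
        intro b hb
        have hbc : b ≠ D.c := (mem_erase.1 hb).1
        have h7 : ((nb T b univ).filter fun x => D.par x = b ∧ x ≠ D.c) ⊆
            (nb T b univ).erase (D.par b) := by
          intro x hx
          rw [mem_filter] at hx
          rw [mem_erase]
          refine ⟨?_, hx.1⟩
          rintro rfl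
          have h8 := D.dep_par b hbc
          have h9 := D.dep_par _ hx.2.2
          rw [hx.2.1] at h9
          omega
        have h8 : D.par b ∈ nb T b univ := mem_nb.2 ⟨mem_univ _, D.adj_par hbc⟩
        have h9 := card_le_card h7
        rw [card_erase_of_mem h8] at h9
        have h10 := card_pos.2 ⟨_, h8⟩
        unfold dg
        omega
      have h7 := sum_le_sum h6
      rw [sum_add_distrib, sum_const, smul_eq_mul, mul_one, card_erase_of_mem hcS] at h7
      have h8 := add_sum_erase S (fun b => ((nb T b univ).filter fun x => D.par x = b ∧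
        x ≠ D.c).card) hcS
      have h9 := add_sum_erase S (fun b => dg T b) hcS
      have h10 : ((nb T D.c univ).filter fun x => D.par x = D.c ∧ x ≠ D.c).card ≤ dg T D.c :=
        card_le_card (filter_subset _ _)
      have h11 := card_pos.2 ⟨_, hcS⟩
      omega
    have h4 := forest_bip T hT (inner T \ P) P (by
      rw [disjoint_left]
      intro x hx hx'
      exact (mem_sdiff.1 hx).2 hx') ⟨D.c, hc⟩
    have h5 : ∑ x ∈ inner T \ P, (nb T x P).card = ∑ x ∈ inner T \ P, dg T x := by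
      refine sum_congr rfl ?_
      intro x hx
      have hxP := (mem_sdiff.1 hx).2
      unfold dg
      have : nb T x P = nb T x univ := by
        ext y
        rw [mem_nb, mem_nb]
        constructor
        · rintro ⟨-, h⟩; exact ⟨mem_univ _, h⟩
        · rintro ⟨-, h⟩
          refine ⟨?_, h⟩
          by_contra hy
          exact hxP ((hP x y h).2 hy)
      rw [this]
    have h6 : ∑ x ∈ (inner T \ P) \ S, dg T x + ∑ x ∈ S, dg T x = ∑ x ∈ inner T \ P, dg T x :=
      sum_sdiff hS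
    have h7 : ∑ x ∈ (inner T \ P) \ S, 2 ≤ ∑ x ∈ (inner T \ P) \ S, dg T x := by
      refine sum_le_sum ?_
      intro x hx
      exact mem_inner.1 (mem_sdiff.1 (mem_sdiff.1 hx).1).1
    rw [sum_const, smul_eq_mul, card_sdiff_of_subset hS] at h7
    omega

theorem treeK [Fintype W] [DecidableEq W] (T : SimpleGraph W) (hT : T.IsTree)
    (hW : 3 ≤ Fintype.card W) (P : Finset W) (hP : Bip T P) (hPc : 2 * P.card ≤ Fintype.card W)
    (r : ℕ) (hr : 1 ≤ r) (hr' : r ≤ (inner T \ P).card) :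
    ∃ D : RT T, ∃ K S : Finset W, D.c ∈ K ∧ (∀ x ∈ K, x ≠ D.c → D.par x ∈ K) ∧
      S ⊆ inner T \ P ∧ S.card = r ∧ S ⊆ K ∧ (∀ w ∈ K, w ∉ S → w ∈ P) ∧
      (∀ b ∈ S, ∀ x, T.Adj b x → x ∈ K ∨ x ∉ inner T) ∧ 2 ≤ K.card ∧
      K.card + 2 * (inner T \ P).card + 2 ≤ 2 * r + Fintype.card W := by
  have hne : (inner T \ P).Nonempty := card_pos.1 (by omega)
  obtain ⟨c, hc⟩ := hne
  have hPQ : P.card + (inner T \ P).card ≤ Fintype.card W := by
    rw [← card_union_of_disjoint disjoint_sdiff]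
    exact card_le_univ _
  by_cases hcase : P.card + (inner T \ P).card + 2 ≤ Fintype.card W
  · obtain ⟨D, hDc, -⟩ := exists_RT hT c
    have hDc' : D.c ∈ inner T \ P := by rw [hDc]; exact hc
    obtain ⟨K, S, h1, h2, h3, h4, h5, h6, h7, h8, h9⟩ := treeK_core T hT P hP D hDc' ∅
      (fun y hy => absurd hy (notMem_empty y)) (by simp) r hr hr'
    rw [card_empty] at h9
    exact ⟨D, K, S, h1, h2, h3, h4, h5, h6, h7, h8, by omega⟩
  · -- exactly one leaf outside `P`
    have h4 := forest_bip T hT (inner T \ P) P (by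
      rw [disjoint_left]
      intro x hx hx'
      exact (mem_sdiff.1 hx).2 hx') ⟨c, hc⟩
    have hnbP : ∀ x, x ∉ P → nb T x P = nb T x univ := by
      intro x hxP
      ext y
      rw [mem_nb, mem_nb]
      constructor
      · rintro ⟨-, h⟩; exact ⟨mem_univ _, h⟩
      · rintro ⟨-, h⟩
        refine ⟨?_, h⟩
        by_contra hy
        exact hxP ((hP x y h).2 hy)
    have h7 : ∑ x ∈ inner T \ P, 2 ≤ ∑ x ∈ inner T \ P, (nb T x P).card := by
      refine sum_le_sum ?_
      intro x hx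
      rw [hnbP x (mem_sdiff.1 hx).2]
      exact mem_inner.1 (mem_sdiff.1 hx).1
    rw [sum_const, smul_eq_mul] at h7
    have hyex : ∃ y ∈ P, y ∉ inner T := by
      by_contra hcon
      push Not at hcon
      have hPne : P.Nonempty := card_pos.1 (by omega)
      have h8 := forest_bip T hT P Pᶜ (disjoint_compl_right) hPne
      have h9 : ∑ x ∈ P, 2 ≤ ∑ x ∈ P, (nb T x Pᶜ).card := by
        refine sum_le_sum ?_
        intro x hx
        have : nb T x Pᶜ = nb T x univ := by
          ext y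
          rw [mem_nb, mem_nb, mem_compl]
          constructor
          · rintro ⟨-, h⟩; exact ⟨mem_univ _, h⟩
          · rintro ⟨-, h⟩
            exact ⟨(hP x y h).1 hx, h⟩
        rw [this]
        exact mem_inner.1 (hcon x hx)
      rw [sum_const, smul_eq_mul] at h9
      have h10 : P.card + Pᶜ.card = Fintype.card W := card_add_card_compl P
      omega
    obtain ⟨y, hyP, hyI⟩ := hyex
    obtain ⟨c0, hc0, hyc0, -⟩ := leaf_par T hT hW y hyI
    have hc0P : c0 ∉ P := (hP y c0 hyc0).1 hyP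
    obtain ⟨D, hDc, -⟩ := exists_RT hT c0
    have hDc' : D.c ∈ inner T \ P := by rw [hDc]; exact mem_sdiff.2 ⟨hc0, hc0P⟩
    obtain ⟨K, S, h1, h2, h3, h4', h5, h6, h7', h8, h9⟩ := treeK_core T hT P hP D hDc' {y} (by
      intro z hz
      rw [mem_singleton.1 hz, hDc]
      exact ⟨hyc0.symm, hyI⟩) (by simp) r hr hr'
    rw [card_singleton] at h9
    exact ⟨D, K, S, h1, h2, h3, h4', h5, h6, h7', h8, by omega⟩

end Pool.Agent.Lib.MP_0e31aa_co.QQ
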