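import Pool.Agent.Lib.MP_0e31aa_co.HH.Main
import Pool.Agent.Lib.MP_0e31aa_co.QQ.Common
import Pool.Agent.Lib.MP_0e31aa_co.QQ.OneY
import Pool.Agent.Lib.MP_0e31aa_co.QQ.EmbK
import Pool.Agent.Lib.MP_0e31aa_co.QQ.TreeK
import Pool.Agent.Lib.MP_0e31aa_co.QQ.EmbAll

/-!
Module Main: the full theorem (proved over the other modules).
-/

set_option autoImplicit false

namespace Pool.Agent.Lib.MP_0e31aa_co.QQ

open Finset
open Pool.Agent.Lib.MP_0e31aa_co.TC (nb mem_nb Emb HasCyc Bip Pth card_nb_compl card_nb_compl_mem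
  card_nb_le)
open Pool.Agent.Lib.MP_0e31aa_co.H (dg big mem_big inner mem_inner dg_compl)
open Pool.Agent.Lib.MP_0e31aa_co.HH (PL few_hubs blue_edge hubs_lower)

variable {V W : Type}

theorem card_nb_split [Fintype V] [DecidableEq V] (G : SimpleGraph V) (v : V) (Z : Finset V) :
    (nb G v Zᶜ).card + (nb G v Z).card = dg G v := by
  have h : nb G v univ = nb G v Zᶜ ∪ nb G v Z := by
    ext x
    simp only [mem_nb, mem_union, mem_compl, mem_univ, true_and]
    tauto
  unfold dg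
  rw [h, card_union_of_disjoint]
  rw [disjoint_left]
  intro x hx hx'
  rw [mem_nb, mem_compl] at hx
  rw [mem_nb] at hx'
  exact hx.1 hx'.1

/-- The full theorem. -/
theorem main [Fintype V] [DecidableEq V] [Fintype W] [DecidableEq W] (G : SimpleGraph V)
    (n m : ℕ) (hodd : Odd m) (hm : 5 ≤ m) (hV : Fintype.card V + 1 = 2 * n)
    (hW : Fintype.card W = n) (T : SimpleGraph W) (hT : T.IsTree) (P : Finset W) (hP : Bip T P)
    (hP2 : 2 * P.card ≤ n) (hmp : m + P.card ≤ 2 * n) : HasCyc G m ∨ Emb T Gᶜ := by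
  classical
  have hn : 3 ≤ n := by omega
  by_contra hcon
  rw [not_or] at hcon
  obtain ⟨hC, hE⟩ := hcon
  obtain ⟨u, hu, v, hv, huv⟩ := blue_edge G n (by omega) hV hW T hT hE
  obtain ⟨hl, -⟩ := few_hubs G n m hn hodd hm hV hW T hT P hP hP2 hmp hE hC
  have hlow := hubs_lower G n hn hV hW T hT hE
  obtain ⟨M, hM⟩ := maxP_ex G n m (by omega) hV hC u v hu hv huv (by omega)
  obtain ⟨Y, hYM, hYc, hY1⟩ := oneY G n m hV v u M hM
  set Z : Finset V := M.toFinset with hZ
  set X : Finset V := Zᶜ with hX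
  have hZc : Z.card = M.length := List.toFinset_card_of_nodup hM.pl.nodup
  have hXM : ∀ x, x ∈ X ↔ x ∉ M := by
    intro x
    rw [hX, mem_compl, hZ, List.mem_toFinset]
  have hXc : X.card + M.length = Fintype.card V := by
    have h1 : Z.card ≤ Fintype.card V := card_le_univ Z
    rw [hX, card_compl, hZc]
    rw [hZc] at h1
    omega
  have hXd : ∀ x ∈ X, n ≤ dg Gᶜ x + 1 := by
    intro x hx
    rw [hXM] at hx
    have h1 : ¬ n ≤ dg G x := fun h => hx (hM.hub x (mem_big.2 h))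
    have h2 := dg_compl G x
    omega
  have hlen := hM.len
  -- the common neighbours
  have hk : ∀ x₁ ∈ X, ∀ x₂ ∈ X, x₁ ≠ x₂ → ∃ C : Finset V, M.length / 2 - 1 ≤ C.card ∧
      ∀ y ∈ C, y ∈ Z ∧ Gᶜ.Adj x₁ y ∧ Gᶜ.Adj x₂ y := by
    intro x₁ h1 x₂ h2 h12
    rw [hXM] at h1 h2
    refine ⟨Z.filter fun y => ¬ G.Adj x₁ y ∧ ¬ G.Adj x₂ y, ?_, ?_⟩
    · have := common G n m v u M hM x₁ x₂ h1 h2 h12
        (Z.filter fun y => ¬ G.Adj x₁ y ∧ ¬ G.Adj x₂ y) (by
          intro y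
          rw [mem_filter, hZ, List.mem_toFinset])
      omega
    · intro y hy
      rw [mem_filter] at hy
      have hyM : y ∈ M := List.mem_toFinset.1 hy.1
      refine ⟨hy.1, ?_, ?_⟩
      · rw [SimpleGraph.compl_adj]
        exact ⟨fun h => h1 (h ▸ hyM), hy.2.1⟩
      · rw [SimpleGraph.compl_adj]
        exact ⟨fun h => h2 (h ▸ hyM), hy.2.2⟩
  have hXZ : Disjoint X Z := by
    rw [hX]
    exact disjoint_compl_left
  have hYZ : Y ⊆ Z := fun y hy => List.mem_toFinset.2 (hYM y hy)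
  have hYc' : Fintype.card W + 1 ≤ Y.card + (inner T).card := by rw [hW]; omega
  have hY1' : ∀ x ∈ X, (nb Gᶜᶜ x Y).card ≤ 1 := by
    intro x hx
    rw [compl_compl]
    exact hY1 x ((hXM x).1 hx)
  have hdeg : ∀ x ∈ X, Fintype.card W ≤ dg Gᶜ x + 1 := by
    intro x hx
    rw [hW]
    exact hXd x hx
  by_cases hq : (inner T \ P).card ≤ M.length / 2 - 1
  · -- everything fits into `M`
    refine hE (embAll T hT (by omega) P hP Gᶜ X Y Z hXZ hYZ hYc' hY1' (M.length / 2 - 1) hk hdeg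
      ∅ ∅ (empty_subset _) (Subset.refl _) ?_ ?_ ?_ ?_ (fun _ => v) ?_ ?_ ?_)
    · intro w hw; simp at hw
    · intro b hb; simp at hb
    · rw [card_empty]; omega
    · rw [card_empty]; omega
    · simp
    · intro w hw; simp at hw
    · intro a ha; simp at ha
  · obtain ⟨r, hr⟩ : ∃ r, (inner T \ P).card = r + (M.length / 2 - 1) :=
      ⟨(inner T \ P).card - (M.length / 2 - 1), by omega⟩
    obtain ⟨D, K, S, hDK, hKc, hS, hSr, hSK, hKP, hN, hK2, hKn⟩ :=
      treeK T hT (by omega) P hP (by omega) r (by omega) (by omega)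
    rw [hW] at hKn
    have hPQ : P.card + (inner T \ P).card ≤ n := by
      rw [← hW, ← card_union_of_disjoint disjoint_sdiff]
      exact card_le_univ _
    have hcn : M.length + 1 ≤ n := by omega
    have hmin : ∀ x ∈ X, n + (nb G x Z).card ≤ (nb Gᶜ x X).card + M.length + 1 := by
      intro x hx
      have h1 := hXd x hx
      have h2 := card_nb_split Gᶜ x Z
      have h3 : (nb G x Z).card + (nb Gᶜ x Z).card = Z.card :=
        card_nb_compl G x Z (by rw [hX, mem_compl] at hx; exact hx)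
      rw [hZc] at h3
      rw [hX]
      omega
    obtain ⟨x₀, hx₀, hx₀v⟩ : ∃ x₀ ∈ X, G.Adj v x₀ := by
      have h1 := mem_big.1 hM.hv
      have h2 := card_nb_split G v Z
      have h3 := card_nb_le G v Z
      have h4 : 0 < (nb G v Zᶜ).card := by
        rw [hZc] at h3
        omega
      obtain ⟨x₀, hx₀⟩ := card_pos.1 h4
      rw [mem_nb] at hx₀
      exact ⟨x₀, hx₀.1, hx₀.2⟩
    have hvZ : v ∈ Z := List.mem_toFinset.2 (hM.hub v hM.hv)
    have h0 : 1 ≤ (nb G x₀ Z).card := by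
      rw [Nat.one_le_iff_ne_zero, ← Nat.pos_iff_ne_zero, card_pos]
      exact ⟨v, mem_nb.2 ⟨hvZ, hx₀v.symm⟩⟩
    obtain ⟨g, hg1, hg2, hg3⟩ := embK T hT D K hDK hKc hK2 Gᶜ X (fun x hx => by
      have := hmin x hx
      omega) x₀ hx₀ (by
      have := hmin x₀ hx₀
      omega)
    exact hE (embAll T hT (by omega) P hP Gᶜ X Y Z hXZ hYZ hYc' hY1' (M.length / 2 - 1) hk hdeg
      K S hS hSK hKP hN (by omega) (by omega) g hg1 hg2 hg3)

theorem main_all (m n : ℕ) (hodd : Odd m) (hm : 5 ≤ m) (hmn : 2 * m ≤ 3 * n + 1)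
    (T : SimpleGraph (Fin n)) (hT : T.IsTree) (B : SimpleGraph (Fin (2 * n - 1))) :
    HasCyc B m ∨ Emb T Bᶜ := by
  have hn : 3 ≤ n := by omega
  have hW : Fintype.card (Fin n) = n := Fintype.card_fin n
  have hV : Fintype.card (Fin (2 * n - 1)) + 1 = 2 * n := by rw [Fintype.card_fin]; omega
  obtain ⟨P, hP, hP2⟩ := TC.tree_bip T hT
  rw [hW] at hP2
  exact main B n m hodd hm hV hW T hT P hP hP2 (by omega)

end Pool.Agent.Lib.MP_0e31aa_co.QQ
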