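import Pool.Agent.Lib.MP_0e31aa_co.QQ.Defs

/-!
Module NoTwo: insertion of a vertex, and exchange of two vertices.

`noTwo`: a vertex outside `M` is not adjacent to two consecutive vertices of `M` (insert it:
`M.take (i+1) ++ [w] ++ M.drop (i+1)`, length `|M| + 1`, `noext`).
`swap`: `x1 ~ M_i, M_j`, `x2 ~ M_(i+1), M_(j+1)`, `i < j` impossible: the path
`M_0..M_i, x1, M_j, M_(j-1), .., M_(i+1), x2, M_(j+1)..` has `|M| + 2` vertices.
-/

set_option autoImplicit false

namespace Pool.Agent.Lib.MP_0e31aa_co.QQ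

open Finset
open Pool.Agent.Lib.MP_0e31aa_co.TC (nb mem_nb Emb HasCyc Bip Pth)
open Pool.Agent.Lib.MP_0e31aa_co.H (dg big mem_big inner mem_inner)
open Pool.Agent.Lib.MP_0e31aa_co.HH (PL)

variable {V W : Type}

private theorem noTwo_take {G : SimpleGraph V} {a b : V} {M : List V} (h : PL G a b M) (i : ℕ)
    (hi : i < M.length) : PL G a M[i] (M.take (i + 1)) := by
  refine ⟨h.chain.take _, ?_, ?_, ?_⟩
  · exact h.nodup.sublist (List.take_sublist _ _)
  · have := h.head
    cases M with
    | nil => simp at this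
    | cons x xs => simpa using this
  · rw [List.take_succ_eq_append_getElem hi, List.getLast?_concat]

private theorem noTwo_drop {G : SimpleGraph V} {a b : V} {M : List V} (h : PL G a b M) (i : ℕ)
    (hi : i < M.length) : PL G M[i] b (M.drop i) := by
  refine ⟨h.chain.drop _, ?_, ?_, ?_⟩
  · exact h.nodup.sublist (List.drop_sublist _ _)
  · rw [List.drop_eq_getElem_cons hi]; rfl
  · have hne : M.drop i ≠ [] := by
      intro h0
      rw [List.drop_eq_nil_iff] at h0
      omega
    have h1 := h.last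
    rw [← List.take_append_drop i M, List.getLast?_append] at h1
    rw [List.getLast?_eq_getLast_of_ne_nil hne] at h1 ⊢
    simpa using h1

theorem noTwo [Fintype V] [DecidableEq V] (G : SimpleGraph V) (n m : ℕ) (v u : V) (M : List V)
    (h : MaxP G n m v u M) (w : V) (hw : w ∉ M) (i : ℕ) (hi : i + 1 < M.length)
    (h1 : G.Adj w M[i]) (h2 : G.Adj w M[i + 1]) : False := by
  have hA : PL G v M[i] (M.take (i + 1)) := noTwo_take h.pl i (by omega)
  have hC : PL G M[i + 1] u (M.drop (i + 1)) := noTwo_drop h.pl (i + 1) hi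
  have hperm : List.Perm (M.take (i + 1) ++ ([w] ++ M.drop (i + 1))) (w :: M) := by
    have h3 : List.Perm (M.take (i + 1) ++ ([w] ++ M.drop (i + 1)))
        (w :: (M.take (i + 1) ++ M.drop (i + 1))) := List.perm_middle
    rwa [List.take_append_drop] at h3
  have hnd : (M.take (i + 1) ++ ([w] ++ M.drop (i + 1))).Nodup :=
    hperm.nodup_iff.2 (List.nodup_cons.2 ⟨hw, h.pl.nodup⟩)
  have hp : PL G v u (M.take (i + 1) ++ ([w] ++ M.drop (i + 1))) :=
    hA.append ((PL.single G w).append hC h2 hnd.of_append_right) h1.symm hnd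
  have hlen := hperm.length_eq
  rw [List.length_cons] at hlen
  have := h.noext _ hp (fun x hx => hperm.mem_iff.2 (List.mem_cons_of_mem _ hx)) (by omega)
  omega

theorem swap [Fintype V] [DecidableEq V] (G : SimpleGraph V) (n m : ℕ) (v u : V) (M : List V)
    (h : MaxP G n m v u M) (x₁ x₂ : V) (hx₁ : x₁ ∉ M) (hx₂ : x₂ ∉ M) (hx : x₁ ≠ x₂) (i j : ℕ)
    (hij : i < j) (hj : j + 1 < M.length) (h1 : G.Adj x₁ M[i]) (h2 : G.Adj x₁ M[j])
    (h3 : G.Adj x₂ M[i + 1]) (h4 : G.Adj x₂ M[j + 1]) : False := by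
  have hM := h.pl
  have hA : PL G v M[i] (M.take (i + 1)) := noTwo_take hM i (by omega)
  have hC : PL G M[j + 1] u (M.drop (j + 1)) := noTwo_drop hM (j + 1) hj
  have hM1 : PL G v M[j] (M.take (j + 1)) := noTwo_take hM j (by omega)
  have hlen1 : (M.take (j + 1)).length = j + 1 := by
    rw [List.length_take]; omega
  have hB : PL G (M.take (j + 1))[i + 1] M[j] ((M.take (j + 1)).drop (i + 1)) :=
    noTwo_drop hM1 (i + 1) (by omega)
  rw [List.getElem_take] at hB
  set A := M.take (i + 1) with hAd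
  set B := (M.take (j + 1)).drop (i + 1) with hBd
  set C := M.drop (j + 1) with hCd
  have hAB : A ++ B = M.take (j + 1) := by
    have h5 : (M.take (j + 1)).take (i + 1) = A := by
      rw [List.take_take, hAd]
      congr 1
      omega
    rw [← h5]
    exact List.take_append_drop _ _
  have hABC : (A ++ B) ++ C = M := by
    rw [hAB]
    exact List.take_append_drop _ _
  have hperm : List.Perm (A ++ ([x₁] ++ (B.reverse ++ ([x₂] ++ C)))) (x₁ :: x₂ :: M) := by
    rw [← hABC]
    have h5 : List.Perm (A ++ ([x₁] ++ (B.reverse ++ ([x₂] ++ C))))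
        (x₁ :: (A ++ (B.reverse ++ ([x₂] ++ C)))) := List.perm_middle
    refine h5.trans (List.Perm.cons _ ?_)
    rw [← List.append_assoc]
    have h6 : List.Perm ((A ++ B.reverse) ++ ([x₂] ++ C)) (x₂ :: ((A ++ B.reverse) ++ C)) :=
      List.perm_middle
    refine h6.trans (List.Perm.cons _ ?_)
    exact ((List.Perm.append_left A (List.reverse_perm B))).append_right C
  have hnd : (x₁ :: x₂ :: M).Nodup := by
    refine List.nodup_cons.2 ⟨?_, List.nodup_cons.2 ⟨hx₂, hM.nodup⟩⟩
    rw [List.mem_cons, not_or]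
    exact ⟨hx, hx₁⟩
  have hnd1 : (A ++ ([x₁] ++ (B.reverse ++ ([x₂] ++ C)))).Nodup := hperm.nodup_iff.2 hnd
  have hnd2 : ([x₁] ++ (B.reverse ++ ([x₂] ++ C))).Nodup := hnd1.of_append_right
  have hnd3 : (B.reverse ++ ([x₂] ++ C)).Nodup := hnd2.of_append_right
  have hnd4 : ([x₂] ++ C).Nodup := hnd3.of_append_right
  have hp : PL G v u (A ++ ([x₁] ++ (B.reverse ++ ([x₂] ++ C)))) :=
    hA.append ((PL.single G x₁).append (hB.symm.append ((PL.single G x₂).append hC h4 hnd4)
      h3.symm hnd3) h2 hnd2) h1.symm hnd1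
  have hlen := hperm.length_eq
  rw [List.length_cons, List.length_cons] at hlen
  have := h.noext _ hp (fun x hx => hperm.mem_iff.2
    (List.mem_cons_of_mem _ (List.mem_cons_of_mem _ hx))) (by omega)
  omega

end Pool.Agent.Lib.MP_0e31aa_co.QQ
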