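import Pool.Agent.Lib.MP_0e31aa_co.H.Defs
import Pool.Agent.Lib.MP_c5b475_co.Rooted

/-!
Module Reroot: a parent-closed set containing the root stays parent-closed for every other
root in the set.
-/

set_option autoImplicit false

namespace Pool.Agent.Lib.MP_0e31aa_co.QQ

open Finset
open Pool.Agent.Lib.MP_c5b475_co (RT exists_RT)

variable {V W : Type}

theorem reroot_aux {T : SimpleGraph W} (D D' : RT T) (K : Finset W)
    (hK : ∀ x ∈ K, x ≠ D.c → D.par x ∈ K) (hc' : D'.c ∈ K) :
    ∀ k : ℕ, ∀ x w : W, D'.dep w = k → x ≠ D'.c → D'.par x = w → D.par w = x → w ∉ K →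
      False := by
  intro k
  induction k with
  | zero =>
    intro x w hk hx hxw hwx hwK
    have hw : w ≠ D'.c := fun h => hwK (h ▸ hc')
    have := D'.dep_par w hw
    omega
  | succ k ih =>
    intro x w hk hx hxw hwx hwK
    have hw : w ≠ D'.c := fun h => hwK (h ▸ hc')
    have h1 := D'.dep_par w hw
    have h2 := D'.dep_par x hx
    rw [hxw] at h2
    have h3 : T.Adj w (D'.par w) := D'.adj_par hw
    have h4 : D'.par w ≠ x := by
      intro h
      rw [h] at h1
      omega
    rcases (D.adj_iff w (D'.par w)).1 h3 with ⟨_, h5⟩ | ⟨h5, h6⟩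
    · exact h4 (h5.trans hwx)
    · refine ih w (D'.par w) (by omega) hw rfl h6.symm ?_
      intro h7
      have := hK _ h7 h5
      rw [← h6] at this
      exact hwK this

theorem reroot {T : SimpleGraph W} (D D' : RT T) (K : Finset W) (hc : D.c ∈ K)
    (hK : ∀ x ∈ K, x ≠ D.c → D.par x ∈ K) (hc' : D'.c ∈ K) :
    ∀ x ∈ K, x ≠ D'.c → D'.par x ∈ K := by
  intro x hx hxc
  by_contra hw
  have h3 : T.Adj x (D'.par x) := D'.adj_par hxc
  rcases (D.adj_iff x (D'.par x)).1 h3 with ⟨h4, h5⟩ | ⟨_, h6⟩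
  · exact hw (h5 ▸ hK x hx h4)
  · exact reroot_aux D D' K hK hc' _ x (D'.par x) rfl hxc rfl h6.symm hw

end Pool.Agent.Lib.MP_0e31aa_co.QQ
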